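import Pool.Agent.H65.GC.Sub

/-!
# Splitting off the part of abelian type
-/

noncomputable section

namespace GD

open Complex Module NumberField

variable {S S' : Str}

variable (𝓗 : Cohomology)

theorem Cohomology.abSpan_stable {f : S.W →ₗ[ℂ] S'.W} (hf : IsHom S S' f) {x : S.W}
    (hx : x ∈ 𝓗.abSpan S) : f x ∈ 𝓗.abSpan S' := by
  induction hx using Submodule.span_induction with
  | mem x hx =>
    obtain ⟨T, f', t, hT, hf', rfl⟩ := hx
    exact Submodule.subset_span ⟨T, f.comp f', t, hT, hf.comp hf', rfl⟩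
  | zero =>
    rw [map_zero]
    exact zero_mem _
  | add x y _ _ hx hy =>
    rw [map_add]
    exact add_mem hx hy
  | smul c x _ hx =>
    rw [map_smul]
    exact Submodule.smul_mem _ c hx

/-- The eigenspaces of an automorphism which are contained in the part of abelian type are in
the span. -/
theorem Cohomology.inSpan_eig_of_le {N : ℕ} [NeZero N] (hP : Nonempty (Pol S))
    {g : Module.End ℂ S.W} (hg : IsHom S S g) (hN : g ^ N = 1) (a : ZMod N)
    (h : ∀ l, eigPiece N S g a l ≤ 𝓗.abSpan S) : 𝓗.InSpan N S (eigPiece N S g a) := by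
  intro V _ _ δ hδ hgen _ _
  obtain ⟨M, hM, hcx, hG⟩ := 𝓗.exists_ab S
  have hst : ∀ x ∈ S.cx M, g x ∈ S.cx M := by
    rw [hcx]
    exact fun x hx => 𝓗.abSpan_stable hg hx
  have h1 : eigPiece N S g a = fun l =>
      (eigPiece N (subStr S M hM) (subEnd S M hM g hst) a l).map (subInc S M hM) := by
    funext l
    apply le_antisymm
    · intro x hx
      have h2 := h l hx
      rw [← hcx] at h2
      exact ⟨⟨x, h2⟩, (mem_sub_eigPiece M hM hst).2 hx, rfl⟩
    · rintro _ ⟨x, hx, rfl⟩
      exact (mem_sub_eigPiece M hM hst).1 hx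
  have hP' : Nonempty (Pol (subStr S M hM)) := ⟨subPol S M hM hP.some⟩
  have hg' := subEnd_isHom S M hM hg hst
  have hN' := subEnd_pow S M hM hst hN
  rw [h1, hδ.image (subInc_isHom S M hM) (subInc_inj S M hM) hP (isPiece_eig hP' hg' hN' a)]
  exact hgen _ hG hP' _ hg' hN' a

end GD
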