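import Pool.Agent.H65.GC.Val

/-!
# Tate twists, sums, Tate pieces and real pieces
-/

noncomputable section

namespace GD

open Complex Module NumberField

/-- Traces under an isomorphism of subspaces. -/
theorem gc_trOn_map {W W' : Type} [AddCommGroup W] [Module ℂ W] [AddCommGroup W'] [Module ℂ W']
    [FiniteDimensional ℂ W] [FiniteDimensional ℂ W'] {f : W →ₗ[ℂ] W'} {U : Submodule ℂ W}
    {U' : Submodule ℂ W'} (hb : Set.BijOn f U U') {T : Module.End ℂ W} {T' : Module.End ℂ W'}
    (hT : ∀ x ∈ U, T x ∈ U) (c : ℂ) (h : ∀ x ∈ U, T' (f x) = f (T x) + c • f x) :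
    trOn T' U' = trOn T U + c * finrank ℂ U := by
  have hT' : ∀ y ∈ U', T' y ∈ U' := by
    intro y hy
    obtain ⟨x, hx, rfl⟩ := hb.surjOn hy
    rw [h x hx]
    exact add_mem (hb.mapsTo (hT x hx)) (U'.smul_mem c (hb.mapsTo hx))
  rw [trOn_of_stable hT, trOn_of_stable hT']
  let e : U ≃ₗ[ℂ] U' := LinearEquiv.ofBijective (f.restrict (p := U) (q := U') fun x hx => hb.mapsTo hx)
    ⟨by
      intro x y hxy
      exact Subtype.ext (hb.injOn x.2 y.2 (congrArg Subtype.val hxy)), by
      intro y
      obtain ⟨x, hx, hxy⟩ := hb.surjOn y.2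
      exact ⟨⟨x, hx⟩, Subtype.ext hxy⟩⟩
  have he : ∀ x : U, ((e x : U') : W') = f x := fun _ => rfl
  have h1 : T'.restrict hT' = e.conj (T.restrict hT + c • LinearMap.id) := by
    apply LinearMap.ext
    intro y
    obtain ⟨x, rfl⟩ := e.surjective y
    rw [LinearEquiv.conj_apply_apply, LinearEquiv.symm_apply_apply]
    apply Subtype.ext
    rw [he]
    change T' (e x : W') = f (T x + c • (x : W))
    rw [he, h x x.2, map_add, map_smul]
  rw [h1, LinearMap.trace_conj', map_add, map_smul, LinearMap.trace_id, smul_eq_mul]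

section twist

variable {S S' : Str} {n : ℕ} {f : S.W →ₗ[ℂ] S'.W} {U : Submodule ℂ S.W}
  {U' : Submodule ℂ S'.W}

theorem IsTwist.map_Bbar (hf : IsTwist S S' n f) {x : S.W}
    (hx : x ∈ Submodule.span Qbar (S.B : Set S.W)) :
    f x ∈ Submodule.span Qbar (S'.B : Set S'.W) := by
  induction hx using Submodule.span_induction with
  | mem x hx => exact Submodule.subset_span (hf.betti x hx)
  | zero =>
    rw [map_zero]
    exact zero_mem _
  | add x y _ _ hx hy =>
    rw [map_add]
    exact add_mem hx hy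
  | smul c x _ hx =>
    have h2 : f (c • x) = c • f x := map_smul f (c : ℂ) x
    rw [h2]
    exact Submodule.smul_mem _ c hx

/-- Periods under a Tate twist. -/
theorem IsTwist.period (hf : IsTwist S S' n f) (hb : Set.BijOn f U U') {z : ℂ}
    (hz : IsSpacePeriod S U z) :
    IsSpacePeriod S' U' ((2 * Real.pi * I) ^ (n * finrank ℂ U) * z) := by
  classical
  obtain ⟨m, v, ω, Φ, hv, hvs, hω, hωs, hvB, hωD, hΦ, rfl⟩ := hz
  have hm : finrank ℂ U = m := by
    rw [← hvs, finrank_span_eq_card hv, Fintype.card_fin]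
  have hmap : Submodule.map f U = U' := SetLike.coe_injective (by
    rw [Submodule.map_coe]
    exact hb.image_eq)
  set c : ℂ := (2 * Real.pi * I) ^ n with hc
  have hc0 : c ≠ 0 := pow_ne_zero n two_pi_I_ne'
  have hinj : ∀ w : Fin m → S.W, LinearIndependent ℂ w →
      Submodule.span ℂ (Set.range w) = U → LinearIndependent ℂ (fun i => f (w i)) := by
    intro w hw hws
    exact hw.map_injOn f (by
      rw [hws]
      exact hb.injOn)
  have hspan : ∀ w : Fin m → S.W, Submodule.span ℂ (Set.range w) = U →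
      Submodule.span ℂ (Set.range fun i => f (w i)) = U' := by
    intro w hws
    have h1 : (Set.range fun i => f (w i)) = f '' Set.range w := by
      rw [← Set.range_comp]
      rfl
    rw [h1, ← Submodule.map_span, hws, hmap]
  refine ⟨m, fun i => f (v i), fun i => c • f (ω i), c • Φ, hinj v hv hvs, hspan v hvs, ?_, ?_,
    fun j => hf.map_Bbar (hvB j), fun j => hf.deRham _ (hωD j), ?_, ?_⟩
  · exact (hinj ω hω hωs).units_smul (fun _ => Units.mk0 c hc0)
  · rw [← hspan ω hωs]
    apply le_antisymm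
    · rw [Submodule.span_le]
      rintro _ ⟨i, rfl⟩
      exact Submodule.smul_mem _ c (Submodule.subset_span ⟨i, rfl⟩)
    · rw [Submodule.span_le]
      rintro _ ⟨i, rfl⟩
      have h1 : c⁻¹ • (c • f (ω i)) ∈ Submodule.span ℂ (Set.range fun i => c • f (ω i)) :=
        Submodule.smul_mem _ _ (Submodule.subset_span ⟨i, rfl⟩)
      rw [smul_smul, inv_mul_cancel₀ hc0, one_smul] at h1
      exact h1
  · intro i
    change c • f (ω i) = ∑ j, (c • Φ) i j • f (v j)
    rw [hΦ i, map_sum, Finset.smul_sum]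
    refine Finset.sum_congr rfl fun j _ => ?_
    rw [map_smul, smul_smul, Matrix.smul_apply, smul_eq_mul]
  · rw [Matrix.det_smul, Fintype.card_fin, hm, hc, ← pow_mul]

/-- Types under a Tate twist. -/
theorem IsTwist.type (hf : IsTwist S S' n f) (hb : Set.BijOn f U U')
    (hU : U ≤ ⨆ p, U ⊓ S.hodge p) (hU' : U' ≤ ⨆ p, U' ⊓ S'.hodge p) :
    spaceType S' U' = spaceType S U + n * finrank ℂ U := by
  have h0 : (DT.hOp S') ∘ₗ f = f ∘ₗ (DT.hOp S) + (n : ℂ) • f := by
    refine DT.ext_hodge fun p x hx => ?_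
    rw [LinearMap.comp_apply, LinearMap.add_apply, LinearMap.comp_apply, LinearMap.smul_apply,
      DT.hOp, DT.hOp, DT.hodgeEnd_apply S' _ (p + n) _ (hf.hodge p x hx),
      DT.hodgeEnd_apply S _ p _ hx, map_smul, ← add_smul]
    push_cast
    rfl
  have h1 := gc_trOn_map hb (gc_hOp_stable hU) (n : ℂ) (T' := DT.hOp S')
    (fun x _ => by
      have h2 := LinearMap.congr_fun h0 x
      exact h2)
  rw [gc_type_trace hU, gc_type_trace hU'] at h1
  exact_mod_cast h1

end twist

section sum

variable {S : Str} {N : ℕ} {U U' : (ZMod N)ˣ → Submodule ℂ S.W}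

/-- Direct sums of pieces are pieces. -/
theorem IsPiece.sup (hU : IsPiece N S U) (hU' : IsPiece N S U')
    (hd : ∀ l, Disjoint (U l) (U' l)) : IsPiece N S (fun l => U l ⊔ U' l) where
  pol := hU.pol
  betti l := sup_le ((hU.betti l).trans (Submodule.span_mono fun x hx =>
    ⟨hx.1, Submodule.mem_sup_left hx.2⟩)) ((hU'.betti l).trans (Submodule.span_mono fun x hx =>
    ⟨hx.1, Submodule.mem_sup_right hx.2⟩))
  deRham l := sup_le ((hU.deRham l).trans (Submodule.span_mono fun x hx =>
    ⟨hx.1, Submodule.mem_sup_left hx.2⟩)) ((hU'.deRham l).trans (Submodule.span_mono fun x hx =>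
    ⟨hx.1, Submodule.mem_sup_right hx.2⟩))
  hodge l := sup_le ((hU.hodge l).trans (iSup_mono fun p => inf_le_inf_right _ le_sup_left))
    ((hU'.hodge l).trans (iSup_mono fun p => inf_le_inf_right _ le_sup_right))
  conj l x hx := by
    obtain ⟨u, hu, u', hu', rfl⟩ := Submodule.mem_sup.1 hx
    rw [map_add]
    exact add_mem (Submodule.mem_sup_left (hU.conj l u hu))
      (Submodule.mem_sup_right (hU'.conj l u' hu'))
  rank l l' := by
    have h : ∀ l, finrank ℂ (U l ⊔ U' l : Submodule ℂ S.W) =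
        finrank ℂ (U l) + finrank ℂ (U' l) := by
      intro l
      have h1 := Submodule.finrank_sup_add_finrank_inf_eq (U l) (U' l)
      rw [(hd l).eq_bot, finrank_bot, add_zero] at h1
      exact h1
    rw [h, h, hU.rank l l', hU'.rank l l']

end sum

variable {V : Type} [AddCommGroup V] [Module ℚ V] {cls : ℂ → V} {N : ℕ} [NeZero N]

/-- The defect of the relation of Gross and Deligne for a piece. -/
def defect (cls : ℂ → V) (N : ℕ) [NeZero N] (S : Str) (U : (ZMod N)ˣ → Submodule ℂ S.W) :
    (ZMod N)ˣ → V := by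
  classical
  exact if IsPiece N S U then
    fun l => uVal cls S (U l) - gVal cls (fun l => (spaceType S (U l) : ℚ)) l else 0

theorem defect_eq {S : Str} {U : (ZMod N)ˣ → Submodule ℂ S.W} (hU : IsPiece N S U) (l : (ZMod N)ˣ) :
    defect cls N S U l =
      uVal cls S (U l) - gVal cls (fun l => (spaceType S (U l) : ℚ)) l := by
  rw [defect, if_pos hU]

/-- The defect is an additive invariant. -/
theorem defect_invariant (hΓ : GammaSpec V cls) (hN : 3 ≤ N) :
    IsInvariant N (defect cls N) where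
  iso S S' n f U U' hf hU hU' hb := by
    funext l
    rw [defect_eq hU, defect_eq hU']
    obtain ⟨z, hz⟩ := gc_exists_period (hU.betti l) (hU.deRham l)
    have hz' := hf.period (hb l) hz
    have h2 : ((2 * Real.pi * I) ^ (n * finrank ℂ (U l)) : ℂ) ≠ 0 :=
      pow_ne_zero _ two_pi_I_ne'
    rw [uVal_eq hΓ hz, uVal_eq hΓ hz', hΓ.mul _ _ h2 hz.trace.1, cls_two_pi_I hΓ]
    have h3 : (fun l => (spaceType S' (U' l) : ℚ)) =
        fun l => (spaceType S (U l) : ℚ) + ((n * finrank ℂ (U 1) : ℕ) : ℚ) := by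
      funext l
      rw [hf.type (hb l) (hU.hodge l) (hU'.hodge l), hU.rank l 1]
      push_cast
      rfl
    rw [h3, gVal_add hΓ (hU.exists_eps hΓ hN) (gc_exists_const hΓ hN _), gVal_const hΓ hN,
      hU.rank l 1]
    abel
  add S U U' hU hU' hd := by
    funext l
    rw [Pi.add_apply, defect_eq hU, defect_eq hU', defect_eq (hU.sup hU' hd)]
    obtain ⟨z, hz⟩ := gc_exists_period (hU.betti l) (hU.deRham l)
    obtain ⟨z', hz'⟩ := gc_exists_period (hU'.betti l) (hU'.deRham l)
    obtain ⟨z'', hz''⟩ := gc_exists_period ((hU.sup hU' hd).betti l) ((hU.sup hU' hd).deRham l)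
    rw [uVal_sup hΓ hz hz' hz'' fun δ => gc_trOn_sup (gc_A_stable (hU.betti l) (hU.deRham l) δ)
      (gc_A_stable (hU'.betti l) (hU'.deRham l) δ) (hd l)]
    have h3 : (fun l => (spaceType S (U l ⊔ U' l) : ℚ)) =
        fun l => (spaceType S (U l) : ℚ) + (spaceType S (U' l) : ℚ) := by
      funext l
      have h4 := gc_trOn_sup (gc_hOp_stable (hU.hodge l)) (gc_hOp_stable (hU'.hodge l)) (hd l)
      rw [gc_type_trace (hU.hodge l), gc_type_trace (hU'.hodge l),
        gc_type_trace ((hU.sup hU' hd).hodge l)] at h4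
      exact_mod_cast h4
    rw [h3, gVal_add hΓ (hU.exists_eps hΓ hN) (hU'.exists_eps hΓ hN)]
    abel
  tate S U hU hT := by
    funext l
    rw [defect_eq hU, Pi.zero_apply]
    -- there is a number r such that both operators are scalars on the Tate classes
    obtain ⟨r, hr⟩ : ∃ r : ℕ, ∀ x ∈ tateSpan S, DT.hOp S x = (r : ℂ) • x ∧
        ∀ δ : Derivation Qbar ℂ ℂ, S.A δ x = ((r : ℂ) * cpi δ) • x := by
      refine ⟨S.wt / 2, fun x hx => ?_⟩
      induction hx using Submodule.span_induction with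
      | mem x hx =>
        obtain ⟨hB, r, hr, hh, hD⟩ := hx
        have hr' : S.wt / 2 = r := by omega
        rw [hr']
        refine ⟨by rw [DT.hOp, DT.hodgeEnd_apply S _ r _ hh], fun δ => ?_⟩
        have h1 := A_eigen δ (S.B_le_Bbar hB) (pow_ne_zero r two_pi_I_ne') hD
        rw [h1, der_two_pi_pow]
        congr 1
        rw [mul_div_assoc, div_self (pow_ne_zero r two_pi_I_ne'), mul_one]
      | zero => simp
      | add x y _ _ hx hy =>
        refine ⟨by rw [map_add, hx.1, hy.1, smul_add], fun δ => ?_⟩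
        rw [map_add, hx.2, hy.2, smul_add]
      | smul c x _ hx =>
        refine ⟨by rw [map_smul, hx.1, smul_comm], fun δ => ?_⟩
        rw [map_smul, hx.2, smul_comm]
    have htr : ∀ (T : Module.End ℂ S.W) (c : ℂ), (∀ x ∈ tateSpan S, T x = c • x) → ∀ l,
        trOn T (U l) = c * finrank ℂ (U l) := by
      intro T c hc l
      have h1 : ∀ x ∈ U l, T x ∈ U l := fun x hx => by
        rw [hc x (hT l hx)]
        exact (U l).smul_mem c hx
      rw [trOn_of_stable h1]
      have h2 : T.restrict h1 = c • LinearMap.id := by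
        apply LinearMap.ext
        intro x
        exact Subtype.ext (hc x (hT l x.2))
      rw [h2, map_smul, LinearMap.trace_id, smul_eq_mul]
    have htype : ∀ l, (spaceType S (U l) : ℚ) = ((r * finrank ℂ (U 1) : ℕ) : ℚ) := by
      intro l
      have h1 := htr _ _ (fun x hx => (hr x hx).1) l
      rw [gc_type_trace (hU.hodge l), hU.rank l 1] at h1
      exact_mod_cast h1
    obtain ⟨z, hz⟩ := gc_exists_period (hU.betti l) (hU.deRham l)
    rw [uVal_of_trace hΓ hz ((r * finrank ℂ (U 1) : ℕ) : ℚ) (fun δ => by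
      rw [htr _ _ (fun x hx => (hr x hx).2 δ) l, hU.rank l 1]
      push_cast
      ring)]
    have h5 : (fun l => (spaceType S (U l) : ℚ)) = fun _ => ((r * finrank ℂ (U 1) : ℕ) : ℚ) :=
      funext htype
    rw [h5, gVal_const hΓ hN, sub_self]
  real S U hU hR := by
    funext l
    rw [defect_eq hU, Pi.zero_apply]
    have htype : ∀ l, (spaceType S (U l) : ℚ) = ((finrank ℂ (U 1) * S.wt : ℕ) : ℚ) / 2 := by
      intro l
      have h1 := hU.type_odd l
      rw [hR l] at h1
      linarith
    obtain ⟨z, hz⟩ := gc_exists_period (hU.betti l) (hU.deRham l)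
    rw [uVal_of_trace hΓ hz (((finrank ℂ (U 1) * S.wt : ℕ) : ℚ) / 2) (fun δ => by
      have h1 := hU.leg_A l δ
      rw [hR l, hU.rank l 1] at h1
      push_cast at h1 ⊢
      linear_combination h1 / 2)]
    have h5 : (fun l => (spaceType S (U l) : ℚ)) =
        fun _ => ((finrank ℂ (U 1) * S.wt : ℕ) : ℚ) / 2 := funext htype
    rw [h5, gVal_const hΓ hN, sub_self]

/-- The relation for a piece with vanishing defect. -/
theorem relPiece_iff (hΓ : GammaSpec V cls) (hN : 3 ≤ N) {S : Str}
    {U : (ZMod N)ˣ → Submodule ℂ S.W} (hU : IsPiece N S U) :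
    RelPiece N S U ↔ defect cls N S U = 0 := by
  have hN0 : (N : ℚ) ≠ 0 := by exact_mod_cast NeZero.ne N
  constructor
  · intro h
    obtain ⟨ε, hε⟩ := hU.exists_eps hΓ hN
    funext l
    rw [defect_eq hU, Pi.zero_apply]
    obtain ⟨z, hz⟩ := gc_exists_period (hU.betti l) (hU.deRham l)
    have h1 := h ε (fun l => by rw [sum_erase, ← tsum_id, hε]) l z hz
    rw [uVal_eq hΓ hz, gVal_eq hΓ hε, cls_of_sim hΓ h1, cls_gammaProd hΓ, sub_self]
  · intro h ε hε l z hz
    have h1 : ∀ l, tsum' N (fun x => x) ε l = (spaceType S (U l) : ℚ) := by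
      intro l
      have h2 := hε l
      rw [sum_erase, ← tsum_id] at h2
      exact (mul_left_cancel₀ hN0 h2).symm
    have h3 := congrFun h l
    rw [defect_eq hU, Pi.zero_apply, uVal_eq hΓ hz, gVal_eq hΓ h1] at h3
    refine sim_of_cls hΓ hz.trace.1 (gammaProd_ne N ε l) ?_
    rw [cls_gammaProd hΓ]
    exact sub_eq_zero.1 h3

end GD
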