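import Pool.Agent.H65.GC.Defs
import Pool.Agent.H65.GC.Twist

/-!
# The alternating sums for automorphisms
-/

noncomputable section

namespace GD

open Complex Module NumberField CategoryTheory

variable (𝓗 : Cohomology)

theorem Cohomology.pull_pow {X : Var} (g : Aut X.X) (i k : ℕ) :
    𝓗.pull (g ^ k).hom i = (𝓗.pull g.hom i : Module.End ℂ (𝓗.H X i).W) ^ k := by
  induction k with
  | zero =>
    rw [pow_zero, pow_zero]
    exact 𝓗.pull_id X i
  | succ k ih =>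
    rw [pow_succ', pow_succ (𝓗.pull g.hom i : Module.End ℂ (𝓗.H X i).W), ← ih]
    exact 𝓗.pull_comp _ _ i

theorem Cohomology.pull_pow_one {X : Var} {g : Aut X.X} {k : ℕ} (hg : g ^ k = 1) (i : ℕ) :
    (𝓗.pull g.hom i : Module.End ℂ (𝓗.H X i).W) ^ k = 1 := by
  rw [← 𝓗.pull_pow, hg]
  exact 𝓗.pull_id X i

/-- The eigenspaces for a root of unity of smaller order. -/
theorem gc_level {N M k : ℕ} [NeZero N] [NeZero M] (hN : N = M * k) {a : ZMod N}
    (ha : addOrderOf a = M) : ∃ u : (ZMod M)ˣ, ∀ (l : (ZMod N)ˣ) (S : Str)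
      (g : Module.End ℂ S.W), eigPiece N S g a l =
        eigSpace S g M ((ZMod.unitsMap (Dvd.intro k hN.symm) l * u : (ZMod M)ˣ) : ZMod M) := by
  have hw : IsPrimitiveRoot (zeta N ^ a.val) M := by
    rw [IsPrimitiveRoot.iff_def]
    constructor
    · rw [← pow_mul]
      have h1 : ((a.val * M : ℕ) : ZMod N) = ((0 : ℕ) : ZMod N) := by
        push_cast
        rw [ZMod.natCast_zmod_val, mul_comm, ← nsmul_eq_mul, ← ha]
        exact addOrderOf_nsmul_eq_zero a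
      rw [gc_zeta_pow _ _ h1, pow_zero]
    · intro l hl
      rw [← pow_mul, (zeta_prim N).pow_eq_one_iff_dvd] at hl
      rw [← ha]
      apply addOrderOf_dvd_of_nsmul_eq_zero
      have h1 : ((a.val * l : ℕ) : ZMod N) = 0 := (ZMod.natCast_eq_zero_iff _ _).2 hl
      push_cast at h1
      rw [ZMod.natCast_zmod_val] at h1
      rw [nsmul_eq_mul, mul_comm]
      exact h1
  obtain ⟨i, -, hi⟩ := (zeta_prim M).eq_pow_of_pow_eq_one hw.pow_eq_one
  have hcop : i.Coprime M := by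
    rw [← (zeta_prim M).pow_iff_coprime (NeZero.pos M), hi]
    exact hw
  refine ⟨ZMod.unitOfCoprime i hcop, fun l S g => ?_⟩
  have h1 : zeta N ^ ((l : ZMod N) * a).val = zeta M ^ (ZMod.val (((ZMod.unitsMap
      (Dvd.intro k hN.symm) l * ZMod.unitOfCoprime i hcop : (ZMod M)ˣ) : ZMod M))) := by
    have h2 : zeta N ^ ((l : ZMod N) * a).val = (zeta N ^ a.val) ^ (l : ZMod N).val := by
      rw [← pow_mul]
      apply gc_zeta_pow
      push_cast
      rw [ZMod.natCast_zmod_val, ZMod.natCast_zmod_val, ZMod.natCast_zmod_val, mul_comm]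
    rw [h2, ← hi, ← pow_mul]
    apply gc_zeta_pow
    push_cast
    rw [ZMod.natCast_zmod_val, ZMod.coe_unitOfCoprime, mul_comm, ZMod.natCast_val]
    congr 1
  exact congrArg (Module.End.eigenspace g) h1

variable {V : Type} [AddCommGroup V] [Module ℚ V] {cls : ℂ → V}

/-- The relation for the alternating sums. -/
theorem gc_alternating (hΓ : GammaSpec V cls) {N : ℕ} [NeZero N] (hN : 3 ≤ N) (X : Var)
    (g : Aut X.X) (a : ZMod N) (h3 : 3 ≤ addOrderOf a) (hg : g ^ addOrderOf a = 1) (n : ℕ)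
    (hn : ∀ i, n ≤ i → Subsingleton (𝓗.H X i).W) :
    ∑ i ∈ Finset.range n,
      (-1 : ℤ) ^ i • defect cls N (𝓗.H X i) (eigPiece N (𝓗.H X i) (𝓗.pull g.hom i) a) = 0 := by
  have hMN : addOrderOf a ∣ N := by
    apply addOrderOf_dvd_of_nsmul_eq_zero
    rw [nsmul_eq_mul, ZMod.natCast_self, zero_mul]
  obtain ⟨M, hM⟩ : ∃ M, addOrderOf a = M := ⟨_, rfl⟩
  rw [hM] at h3 hg hMN
  obtain ⟨k, hk⟩ := hMN
  have hM0 : NeZero M := ⟨by omega⟩
  have hk0 : NeZero k := ⟨by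
    rintro rfl
    exact NeZero.ne N (by rw [hk, mul_zero])⟩
  obtain ⟨u, hu⟩ := gc_level hk hM
  have hgM : ∀ i, (𝓗.pull g.hom i : Module.End ℂ (𝓗.H X i).W) ^ M = 1 := fun i =>
    𝓗.pull_pow_one hg i
  have hgN : ∀ i, (𝓗.pull g.hom i : Module.End ℂ (𝓗.H X i).W) ^ N = 1 := by
    intro i
    rw [hk, pow_mul, hgM, one_pow]
  have hpN : ∀ i, IsPiece N (𝓗.H X i) (eigPiece N (𝓗.H X i) (𝓗.pull g.hom i) a) := fun i =>
    isPiece_eig (𝓗.polarised X i) (𝓗.pull_hom g.hom i) (hgN i) a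
  have hpM : ∀ i, IsPiece M (𝓗.H X i) (eigPiece M (𝓗.H X i) (𝓗.pull g.hom i) 1) := fun i =>
    isPiece_eig (𝓗.polarised X i) (𝓗.pull_hom g.hom i) (hgM i) 1
  have h1 : ∀ (l : (ZMod M)ˣ) i, eigPiece M (𝓗.H X i) (𝓗.pull g.hom i) 1 l =
      eigSpace (𝓗.H X i) (𝓗.pull g.hom i) M l := by
    intro l i
    rw [eigPiece, mul_one]
  -- the functions at level M
  let Q : (ZMod M)ˣ → ℚ := fun l => ∑ i ∈ Finset.range n, (-1) ^ i *
    (eigType (𝓗.H X i) (𝓗.pull g.hom i) M l : ℚ)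
  obtain ⟨ε, hε⟩ : ∃ ε : ZMod M → ℚ, ∀ l, tsum' M (fun x => x) ε l = Q l := by
    refine ex' hΓ M h3 (∑ i ∈ Finset.range n, (-1) ^ i *
      ((finrank ℂ (eigPiece M (𝓗.H X i) (𝓗.pull g.hom i) 1 1) * (𝓗.H X i).wt : ℕ) : ℚ)) Q ?_
    intro l
    rw [← Finset.sum_add_distrib]
    refine Finset.sum_congr rfl fun i _ => ?_
    rw [← (hpM i).type_odd l, h1, h1, mul_add]
    rfl
  choose z hz using fun (l : (ZMod M)ˣ) (i : ℕ) =>
    gc_exists_period ((hpM i).betti l) ((hpM i).deRham l)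
  have hM0' : (M : ℚ) ≠ 0 := by exact_mod_cast NeZero.ne M
  have hfr : ∀ l : (ZMod M)ˣ, ∑ i ∈ Finset.range n, (-1 : ℤ) ^ i • cls (z l i) =
      tsum' M (gam cls) ε l := by
    intro l
    have h2 := 𝓗.fresan X g M hg n hn ε (by
      intro l
      rw [sum_erase, ← tsum_id, hε]) l (z l) (by
      intro i _
      have h3 := hz l i
      rw [h1] at h3
      exact h3)
    have h4 := cls_of_sim hΓ h2
    rw [cls_gammaProd hΓ, cls_prod hΓ] at h4
    · rw [← h4]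
      refine Finset.sum_congr rfl fun i _ => ?_
      rw [cls_zpow hΓ (hz l i).trace.1]
      rw [← Int.cast_smul_eq_zsmul ℚ]
    · intro i _
      exact zpow_ne_zero _ (hz l i).trace.1
  -- level N
  funext l
  rw [Finset.sum_apply, Pi.zero_apply]
  set l' : (ZMod M)ˣ := ZMod.unitsMap (Dvd.intro k hk.symm) l with hl'
  obtain ⟨ε', h5, h6⟩ : ∃ ε' : ZMod N → ℚ,
      (∀ l : (ZMod N)ˣ, tsum' N (fun x => x) ε' l =
        Q (ZMod.unitsMap (Dvd.intro k hk.symm) l * u)) ∧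
      ∀ l : (ZMod N)ˣ, tsum' N (gam cls) ε' l =
        tsum' M (gam cls) ε (ZMod.unitsMap (Dvd.intro k hk.symm) l * u) := by
    clear hu hgN hpN hl' l' l hM hN
    subst hk
    refine ⟨infl M k fun b => ε (b * ((u⁻¹ : (ZMod M)ˣ) : ZMod M)), fun l => ?_, fun l => ?_⟩
    · rw [tsum_infl, tsum_shift, hε]
    · rw [tsum_infl, tsum_shift]
  choose εi hεi using fun i => (hpN i).exists_eps hΓ hN
  have h7 : ∀ i, defect cls N (𝓗.H X i) (eigPiece N (𝓗.H X i) (𝓗.pull g.hom i) a) l =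
      cls (z (l' * u) i) - tsum' N (gam cls) (εi i) l := by
    intro i
    rw [defect_eq (hpN i), gVal_eq hΓ (hεi i)]
    congr 1
    apply uVal_eq hΓ
    have h8 := hz (l' * u) i
    rw [h1] at h8
    rw [hu]
    exact h8
  have h9 : ∀ i, ((-1 : ℤ) ^ i • defect cls N (𝓗.H X i)
      (eigPiece N (𝓗.H X i) (𝓗.pull g.hom i) a)) l =
      (-1 : ℤ) ^ i • cls (z (l' * u) i) - ((-1 : ℚ) ^ i) • tsum' N (gam cls) (εi i) l := by
    intro i
    rw [Pi.smul_apply, h7, smul_sub, ← Int.cast_smul_eq_zsmul ℚ,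
      ← Int.cast_smul_eq_zsmul ℚ ((-1 : ℤ) ^ i) (tsum' N (gam cls) (εi i) l)]
    push_cast
    rfl
  rw [Finset.sum_congr rfl fun i _ => h9 i, Finset.sum_sub_distrib, hfr, ← h6 l]
  have h10 : ∑ i ∈ Finset.range n, ((-1 : ℚ) ^ i) • tsum' N (gam cls) (εi i) l =
      tsum' N (gam cls) (fun b => ∑ i ∈ Finset.range n, ((-1 : ℚ) ^ i) * εi i b) l := by
    rw [tsum_sum (ε := fun i b => ((-1 : ℚ) ^ i) * εi i b)]
    exact Finset.sum_congr rfl fun i _ => (tsum_mul_left _ _ _ _).symm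
  rw [h10, sub_eq_zero]
  apply ko' hΓ
  intro l
  rw [h5, tsum_sum (ε := fun i b => ((-1 : ℚ) ^ i) * εi i b)]
  refine Finset.sum_congr rfl fun i _ => ?_
  rw [tsum_mul_left, hεi, hu, smul_eq_mul]
  rfl

end GD
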