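import Pool.Agent.H65.GC.Pieces
import Pool.Agent.H27.GD.Tate

/-!
# Smooth projective varieties over the algebraic numbers and their cohomology
-/

noncomputable section

namespace GD

open Complex CategoryTheory AlgebraicGeometry

/-! ### Varieties and cohomology -/

/-- The spectrum of the field of algebraic numbers. -/
abbrev Base : Scheme.{0} := Spec (CommRingCat.of Qbar)

/-- Projective space of dimension `n` over the integers. -/
def PSpace (n : ℕ) : Scheme.{0} :=
  let _ : GradedAlgebra (MvPolynomial.homogeneousSubmodule (Fin (n + 1)) ℤ) :=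
    MvPolynomial.gradedAlgebra
  Proj (MvPolynomial.homogeneousSubmodule (Fin (n + 1)) ℤ)

/-- A smooth projective scheme over the field of algebraic numbers. -/
structure Var where
  /-- the scheme with its structure morphism -/
  X : Over Base
  smooth : Smooth X.hom
  projective : ∃ (n : ℕ) (i : X.left ⟶ PSpace n), IsClosedImmersion (Limits.prod.lift i X.hom)

/-- `Z` is the product of `X` and `Y`. -/
def IsProd (X Y Z : Var) : Prop :=
  ∃ (p : Z.X ⟶ X.X) (q : Z.X ⟶ Y.X), IsPullback p.left q.left X.X.hom Y.X.hom

/-- `Z` is a product of members of `𝒱`. -/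
inductive Products (𝒱 : Var → Prop) : Var → Prop
  | base (X : Var) : 𝒱 X → Products 𝒱 X
  | prod (X Y Z : Var) : Products 𝒱 X → Products 𝒱 Y → IsProd X Y Z → Products 𝒱 Z

/-- The Betti, de Rham and Hodge cohomology of smooth projective schemes over the field of
algebraic numbers, with the published theorems which are used. -/
structure Cohomology where
  /-- `H X i` is the cohomology of degree `i` of `X` -/
  H : Var → ℕ → Str
  wt : ∀ X i, (H X i).wt = i
  /-- functoriality -/
  pull : ∀ {X Y : Var}, (X.X ⟶ Y.X) → ∀ i, (H Y i).W →ₗ[ℂ] (H X i).W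
  pull_id : ∀ (X : Var) (i : ℕ), pull (𝟙 X.X) i = LinearMap.id
  pull_comp : ∀ {X Y Z : Var} (f : X.X ⟶ Y.X) (g : Y.X ⟶ Z.X) (i : ℕ),
    pull (f ≫ g) i = pull f i ∘ₗ pull g i
  pull_hom : ∀ {X Y : Var} (f : X.X ⟶ Y.X) (i : ℕ), IsHom (H Y i) (H X i) (pull f i)
  finite : ∀ X, ∃ n, ∀ i, n ≤ i → Subsingleton (H X i).W
  /-- the Hodge-Riemann relations -/
  polarised : ∀ X i, Nonempty (Pol (H X i))
  /-- the Künneth formula -/
  kunneth : ∀ X Y Z, IsProd X Y Z → ∀ m, ∃ (n : ℕ) (i j : Fin n → ℕ)
    (μ : ∀ k, (H X (i k)).W →ₗ[ℂ] (H Y (j k)).W →ₗ[ℂ] (H Z m).W),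
    (∀ k, IsBil (H X (i k)) (H Y (j k)) (H Z m) (μ k)) ∧
      ⨆ k, LinearMap.range (TensorProduct.lift (μ k)) = ⊤
  /-- P. Deligne, Cycles de Hodge absolus et périodes des intégrales des variétés abéliennes
  (1980), and G. Anderson, Cyclotomy and an extension of the Taniyama group (1986): the conjecture
  of Gross and Deligne holds for the structures generated by first cohomology groups and Tate
  structures. -/
  abelian : ∀ (F : Type) [Field F] [NumberField F] (e : F →+* ℂ), (∃ d, LiesIn e d) →
    TriplesFor (Gen fun S => (∃ X, S = H X 1) ∨ ∃ m, S = DT.Tate m) e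
  /-- J. Fresán, Periods of Hodge structures and special values of the gamma function,
  Inventiones 208 (2017): the alternating product of the determinants of periods of the
  eigenspaces of an automorphism `g`, `g ^ N = 1`, for the primitive roots of unity of order `N`,
  is the gamma product prescribed by the Hodge types. -/
  fresan : ∀ (X : Var) (g : Aut X.X) (N : ℕ) [NeZero N], g ^ N = 1 → ∀ n,
    (∀ i, n ≤ i → Subsingleton (H X i).W) → ∀ ε : ZMod N → ℚ,
    (∀ l : (ZMod N)ˣ,
      (N : ℚ) * ∑ i ∈ Finset.range n, (-1) ^ i * (eigType (H X i) (pull g.hom i) N l : ℚ) =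
        ∑ a ∈ Finset.univ.erase (0 : ZMod N), ε a * (((l : ZMod N) * a).val : ℚ)) →
    ∀ (l : (ZMod N)ˣ) (z : ℕ → ℂ), (∀ i < n, IsEigPeriod (H X i) (pull g.hom i) N l (z i)) →
      Sim (∏ i ∈ Finset.range n, z i ^ ((-1 : ℤ) ^ i)) (gammaProd N ε l)

variable (𝓗 : Cohomology)

/-- The first cohomology groups of smooth projective schemes and the Tate structures. The
structures which they generate are called structures of abelian type. -/
def Cohomology.FirstDegree (S : Str) : Prop := (∃ X, S = 𝓗.H X 1) ∨ ∃ m, S = DT.Tate m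

/-- The part of abelian type of `S`: the complex span of the images of the morphisms from
structures of abelian type to `S`. It contains the classes of algebraic cycles. -/
def Cohomology.abSpan (S : Str) : Submodule ℂ S.W :=
  Submodule.span ℂ {x | ∃ (T : Str) (f : T.W →ₗ[ℂ] S.W) (t : T.W), Gen 𝓗.FirstDegree T ∧
    IsHom T S f ∧ x = f t}

/-- The class of the piece `U` of `S` of level `N` lies in the rational span of the classes of

* the pieces of polarised structures of abelian type on which an automorphism of order dividing `N`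
  or a field acts, and
* the alternating sums over all degrees of the eigenspaces of an automorphism `g` of a smooth
  projective scheme for the conjugates of a root of unity whose order is a multiple of the order
  of `g`,

modulo isomorphisms, Tate twists, Tate classes and pieces stable under complex conjugation: every
additive invariant with values in a rational vector space which vanishes on these vanishes
on `U`. -/
def Cohomology.InSpan (N : ℕ) [NeZero N] (S : Str) (U : (ZMod N)ˣ → Submodule ℂ S.W) : Prop :=
  ∀ (V : Type) [AddCommGroup V] [Module ℚ V]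
    (δ : (S : Str) → ((ZMod N)ˣ → Submodule ℂ S.W) → V), IsInvariant N δ →
    (∀ T, Gen 𝓗.FirstDegree T → Nonempty (Pol T) → ∀ g, IsHom T T g → g ^ N = 1 → ∀ a,
      δ T (eigPiece N T g a) = 0) →
    (∀ T, Gen 𝓗.FirstDegree T → Nonempty (Pol T) → ∀ (K : Type) [Field K] [NumberField K]
      (e : K →+* ℂ), LiesIn e N → ∀ κ : K →ₙ+* Module.End ℂ T.W, (∀ a, IsHom T T (κ a)) → ∀ U',
      IsFieldPiece N T e κ U' → δ T U' = 0) →
    (∀ (X : Var) (g : Aut X.X) (a : ZMod N), 3 ≤ addOrderOf a → g ^ addOrderOf a = 1 → ∀ n,
      (∀ i, n ≤ i → Subsingleton (𝓗.H X i).W) →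
      ∑ i ∈ Finset.range n, (-1 : ℤ) ^ i • δ (𝓗.H X i) (eigPiece N (𝓗.H X i) (𝓗.pull g.hom i) a) =
        0) →
    δ S U = 0

/-- The automorphisms `g` of finite order of the structure `S` such that, for some `M` with
`g ^ M = 1`, the eigenspaces of `g` are in the span at every level `N` divisible by `M`. -/
def Cohomology.goodAut (S : Str) : Set (Module.End ℂ S.W) :=
  {g | IsHom S S g ∧ ∃ M, 0 < M ∧ g ^ M = 1 ∧ ∀ (N : ℕ) [NeZero N], 3 ≤ N → M ∣ N → ∀ a,
    𝓗.InSpan N S (eigPiece N S g a)}

/-- The actions of the imaginary cyclic subfields `K` of `F` on `S` through the centre of the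
endomorphisms of `S` are known: the parts on which `K` acts through its embeddings are in the
span, or all elements of `K` act, up to endomorphisms into the part of abelian type, by rational
combinations of automorphisms of finite order whose eigenspaces are in the span. -/
def Cohomology.Known (S : Str) {F : Type} [Field F] (e : F →+* ℂ) : Prop :=
  ∀ (K : Type) [Field K] [NumberField K] (i : K →+* F), (∃ x, (e (i x)).im ≠ 0) →
    IsGalois ℚ K → IsCyclic (K ≃ₐ[ℚ] K) → ∀ κ : K →ₙ+* Module.End ℂ S.W, CentralAction κ →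
      (∃ (N : ℕ) (_ : NeZero N) (U : (ZMod N)ˣ → Submodule ℂ S.W), LiesIn (e.comp i) N ∧
        IsFieldPiece N S (e.comp i) κ U ∧ 𝓗.InSpan N S U) ∨
      ∀ a, ∃ y ∈ Submodule.span ℚ (𝓗.goodAut S), ∀ x, κ a x - y x ∈ 𝓗.abSpan S

/-- Further published facts. -/
structure Cohomology.Facts : Prop where
  /-- classes of degree zero are locally constant functions -/
  zero : ∀ X, ∀ x ∈ (𝓗.H X 0).B, x ∈ (𝓗.H X 0).D
  top : ∀ (d : ℕ) (X : Var), SmoothOfRelativeDimension d X.X.hom → ∀ i, 2 * d < i →
    Subsingleton (𝓗.H X i).W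
  /-- the hard Lefschetz theorem, for an ample class invariant under the automorphism `g` of finite
  order -/
  lefschetz : ∀ (d : ℕ) (X : Var), SmoothOfRelativeDimension d X.X.hom → ∀ (g : Aut X.X) (N : ℕ),
    0 < N → g ^ N = 1 → ∀ i, i < d → ∃ L : (𝓗.H X i).W →ₗ[ℂ] (𝓗.H X (2 * d - i)).W,
      IsTwist (𝓗.H X i) (𝓗.H X (2 * d - i)) (d - i) L ∧ Function.Bijective L ∧
        ∀ x, L (𝓗.pull g.hom i x) = 𝓗.pull g.hom (2 * d - i) (L x)
  /-- F. Bittner, The universal Euler characteristic for varieties of characteristic zero,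
  Compositio 140 (2004), and P. Deligne, Théorie de Hodge III: let `g` be an automorphism of `X`
  with `g ^ N = 1`, and let `m` be the order of `a`. The quotient of `X` by `g ^ m` is, in the
  Grothendieck group of varieties with an automorphism of order dividing `m`, a combination of
  smooth projective varieties `Y k` with automorphisms `h k`. Hence the class of the eigenspaces of
  `g` in the cohomology of degree `i`, for the roots of unity of order `m`, is the same combination
  of the classes of the eigenspaces of the `h k`. -/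
  quotient : ∀ (X : Var) (g : Aut X.X) (N : ℕ) [NeZero N], g ^ N = 1 → ∀ a : ZMod N,
    ∃ (r : ℕ) (Y : Fin r → Var) (h : ∀ k, Aut (Y k).X) (c : Fin r → ℤ),
      (∀ k, h k ^ addOrderOf a = 1) ∧
      ∀ (V : Type) [AddCommGroup V] (δ : (S : Str) → ((ZMod N)ˣ → Submodule ℂ S.W) → V),
        IsInvariant N δ → ∀ i, δ (𝓗.H X i) (eigPiece N (𝓗.H X i) (𝓗.pull g.hom i) a) =
          ∑ k, c k • δ (𝓗.H (Y k) i) (eigPiece N (𝓗.H (Y k) i) (𝓗.pull (h k).hom i) a)

/-- The operators in the cohomology of degree `n` of the variety `X` of dimension `d` given by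
automorphisms `g` of finite order of `X` whose squares act as the identity, modulo the parts of
abelian type, on the cohomology groups of the degrees `i ≤ d` different from `n`. -/
def Cohomology.degAut (X : Var) (d n : ℕ) : Set (Module.End ℂ (𝓗.H X n).W) :=
  {u | ∃ g : Aut X.X, IsOfFinOrder g ∧ u = 𝓗.pull g.hom n ∧ ∀ i, 2 ≤ i → i ≤ d → i ≠ n →
    ∀ x, 𝓗.pull g.hom i (𝓗.pull g.hom i x) - x ∈ 𝓗.abSpan (𝓗.H X i)}

/-- The variety `X` has pure dimension `d`, and every imaginary cyclic subfield `K` of `F` which
acts on the cohomology of a degree `n`, `2 ≤ n ≤ d`, through the centre of the endomorphisms acts,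
modulo the part of abelian type, by rational combinations of automorphisms `g` of finite order
of `X` whose squares act as the identity, modulo the parts of abelian type, on the cohomology
groups of the degrees `i ≤ d` different from `n`. -/
def Cohomology.IsGood (X : Var) {F : Type} [Field F] (e : F →+* ℂ) : Prop :=
  ∃ d : ℕ, SmoothOfRelativeDimension d X.X.hom ∧ ∀ n, 2 ≤ n → n ≤ d →
    ∀ (K : Type) [Field K] [NumberField K] (i : K →+* F), (∃ x, (e (i x)).im ≠ 0) →
      IsGalois ℚ K → IsCyclic (K ≃ₐ[ℚ] K) → ∀ κ : K →ₙ+* Module.End ℂ (𝓗.H X n).W,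
        CentralAction κ → ∀ a, ∃ y ∈ Submodule.span ℚ (𝓗.degAut X d n),
          ∀ x, κ a x - y x ∈ 𝓗.abSpan (𝓗.H X n)

end GD
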