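import Pool.Agent.H65.GC.Piece
import Pool.Agent.H26.FM.Fac

/-!
# The eigenspaces of automorphisms and of fields are pieces
-/

noncomputable section

namespace GD

open Complex Module NumberField

section proj

variable {W : Type} [AddCommGroup W] [Module ℂ W]

/-- The projector to the eigenspace of `g` for `w`. -/
def gcProj (N : ℕ) (g : Module.End ℂ W) (w : ℂ) : Module.End ℂ W :=
  (N : ℂ)⁻¹ • ∑ k ∈ Finset.range N, (w⁻¹) ^ k • g ^ k

variable {N : ℕ} {g : Module.End ℂ W} {w : ℂ}

theorem gcProj_mul (hN : g ^ N = 1) (hN0 : 0 < N) (hw : w ^ N = 1) :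
    g * gcProj N g w = w • gcProj N g w := by
  have hw0 : w ≠ 0 := by
    rintro rfl
    rw [zero_pow hN0.ne'] at hw
    exact zero_ne_one hw
  let f : ℕ → Module.End ℂ W := fun k => (w⁻¹) ^ k • g ^ k
  have h1 : ∀ k, g * f k = w • f (k + 1) := by
    intro k
    change g * ((w⁻¹) ^ k • g ^ k) = w • ((w⁻¹) ^ (k + 1) • g ^ (k + 1))
    rw [mul_smul_comm, ← pow_succ', smul_smul, pow_succ (w⁻¹) k, mul_comm ((w⁻¹) ^ k), ← mul_assoc,
      mul_inv_cancel₀ hw0, one_mul]
  have h2 : ∑ k ∈ Finset.range N, f (k + 1) = ∑ k ∈ Finset.range N, f k := by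
    have h3 := Finset.sum_range_succ f N
    have h4 := Finset.sum_range_succ' f N
    have h5 : f N = f 0 := by
      change (w⁻¹) ^ N • g ^ N = (w⁻¹) ^ 0 • g ^ 0
      rw [inv_pow, hw, hN, inv_one, pow_zero, pow_zero]
    rw [h3, h5] at h4
    exact (add_right_cancel h4).symm
  change g * ((N : ℂ)⁻¹ • ∑ k ∈ Finset.range N, f k) = w • ((N : ℂ)⁻¹ • ∑ k ∈ Finset.range N, f k)
  rw [mul_smul_comm, Finset.mul_sum, Finset.sum_congr rfl fun k _ => h1 k, ← Finset.smul_sum, h2,
    smul_comm]

theorem gcProj_mem (hN : g ^ N = 1) (hN0 : 0 < N) (hw : w ^ N = 1) (x : W) :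
    gcProj N g w x ∈ Module.End.eigenspace g w := by
  rw [Module.End.mem_eigenspace_iff]
  exact LinearMap.congr_fun (gcProj_mul hN hN0 hw) x

theorem gcProj_self (hN0 : 0 < N) (hw : w ^ N = 1) {x : W}
    (hx : x ∈ Module.End.eigenspace g w) : gcProj N g w x = x := by
  have hw0 : w ≠ 0 := by
    rintro rfl
    rw [zero_pow hN0.ne'] at hw
    exact zero_ne_one hw
  rw [Module.End.mem_eigenspace_iff] at hx
  have h1 : ∀ k : ℕ, (g ^ k) x = w ^ k • x := by
    intro k
    induction k with
    | zero => simp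
    | succ k ih => rw [pow_succ, Module.End.mul_apply, hx, map_smul, ih, smul_smul, ← pow_succ']
  have h2 : ∀ k ∈ Finset.range N, ((w⁻¹) ^ k • g ^ k : Module.End ℂ W) x = x := by
    intro k _
    rw [LinearMap.smul_apply, h1, smul_smul, inv_pow, inv_mul_cancel₀ (pow_ne_zero k hw0), one_smul]
  rw [gcProj, LinearMap.smul_apply, LinearMap.sum_apply, Finset.sum_congr rfl h2,
    Finset.sum_const, Finset.card_range, ← Nat.cast_smul_eq_nsmul ℂ, smul_smul,
    inv_mul_cancel₀ (by exact_mod_cast hN0.ne'), one_smul]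

end proj

variable {S : Str}

theorem gc_pow_isHom {g : Module.End ℂ S.W} (hg : IsHom S S g) (k : ℕ) : IsHom S S (g ^ k) := by
  induction k with
  | zero => exact IsHom.id S
  | succ k ih =>
    rw [pow_succ]
    exact ih.comp hg

theorem gc_trace_rat {g : Module.End ℂ S.W} (hg : ∀ x ∈ S.B, g x ∈ S.B) :
    ∃ q : ℚ, LinearMap.trace ℂ S.W g = q := by
  let e : S.cx S.B ≃ₗ[ℂ] S.W := (LinearEquiv.ofEq _ _ S.cx_B).trans Submodule.topEquiv
  have he : ∀ x : S.cx S.B, e x = (x : S.W) := fun _ => rfl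
  obtain ⟨q, hq⟩ := trace_rat (S := S) (M := S.B) le_rfl (e.symm.conj g) (by
    intro x hx
    have h1 : ((e.symm.conj g x : S.cx S.B) : S.W) = g x := by
      rw [LinearEquiv.conj_apply_apply, LinearEquiv.symm_symm, he, ← he, LinearEquiv.apply_symm_apply]
    rw [h1]
    exact hg _ hx)
  refine ⟨q, ?_⟩
  rw [← hq, LinearMap.trace_conj']

theorem gc_zeta_pow {N : ℕ} [NeZero N] (a b : ℕ) (h : (a : ZMod N) = b) :
    zeta N ^ a = zeta N ^ b := by
  have h1 := (zeta_prim N).pow_eq_one
  have h2 : a ≡ b [MOD N] := (ZMod.natCast_eq_natCast_iff a b N).1 h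
  rw [← Nat.mod_add_div a N, ← Nat.mod_add_div b N, h2, pow_add, pow_add, pow_mul, pow_mul, h1,
    one_pow, one_pow]

/-- The eigenspaces of an automorphism of finite order are pieces. -/
theorem isPiece_eig {N : ℕ} [NeZero N] (hP : Nonempty (Pol S)) {g : Module.End ℂ S.W}
    (hg : IsHom S S g) (hN : g ^ N = 1) (a : ZMod N) : IsPiece N S (eigPiece N S g a) := by
  classical
  have hN0 : 0 < N := NeZero.pos N
  have hwN : ∀ k : ℕ, (zeta N ^ k) ^ N = 1 := by
    intro k
    rw [← pow_mul, mul_comm, pow_mul, (zeta_prim N).pow_eq_one, one_pow]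
  have hEl : ∀ l : (ZMod N)ˣ, eigPiece N S g a l =
      Module.End.eigenspace g (zeta N ^ ((l : ZMod N) * a).val) := fun _ => rfl
  have hmem : ∀ (l : (ZMod N)ˣ) (x : S.W),
      gcProj N g (zeta N ^ ((l : ZMod N) * a).val) x ∈ eigPiece N S g a l := fun l x =>
    gcProj_mem hN hN0 (hwN _) x
  have hself : ∀ (l : (ZMod N)ˣ) {x : S.W}, x ∈ eigPiece N S g a l →
      gcProj N g (zeta N ^ ((l : ZMod N) * a).val) x = x := fun l x hx =>
    gcProj_self hN0 (hwN _) hx
  have hz : zeta N ∈ Qbar := mem_algebraicClosure_iff.2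
    (((zeta_prim N).isIntegral hN0).tower_top (A := ℚ)).isAlgebraic
  -- stability of forms
  have hform : ∀ (D : Submodule Qbar S.W), (∀ x ∈ D, g x ∈ D) → ∀ j : ℕ, ∀ x ∈ D,
      gcProj N g (zeta N ^ j) x ∈ D := by
    intro D hD j x hx
    have hpow : ∀ k : ℕ, (g ^ k) x ∈ D := by
      intro k
      induction k with
      | zero => exact hx
      | succ k ih =>
        rw [pow_succ', Module.End.mul_apply]
        exact hD _ ih
    have hc : ∀ k : ℕ, (N : ℂ)⁻¹ * ((zeta N ^ j)⁻¹) ^ k ∈ Qbar := fun k =>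
      mul_mem (inv_mem (natCast_mem _ N)) (pow_mem (inv_mem (pow_mem hz j)) k)
    rw [gcProj, LinearMap.smul_apply, LinearMap.sum_apply, Finset.smul_sum]
    refine Submodule.sum_mem _ fun k _ => ?_
    rw [LinearMap.smul_apply, smul_smul]
    exact D.smul_mem (⟨_, hc k⟩ : Qbar) (hpow k)
  have hspan : ∀ (D : Submodule Qbar S.W), (∀ x ∈ D, g x ∈ D) →
      Submodule.span ℂ (D : Set S.W) = ⊤ → ∀ l : (ZMod N)ˣ,
      eigPiece N S g a l ≤ Submodule.span ℂ {x | x ∈ D ∧ x ∈ eigPiece N S g a l} := by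
    intro D hD htop l x hx
    rw [← hself l hx]
    have h1 : x ∈ Submodule.span ℂ (D : Set S.W) := by
      rw [htop]
      exact Submodule.mem_top
    clear hx
    induction h1 using Submodule.span_induction with
    | mem x hx => exact Submodule.subset_span ⟨hform D hD _ x hx, hmem l x⟩
    | zero =>
      rw [map_zero]
      exact zero_mem _
    | add x y _ _ hx hy =>
      rw [map_add]
      exact add_mem hx hy
    | smul c x _ hx =>
      rw [map_smul]
      exact Submodule.smul_mem _ c hx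
  refine ⟨hP, ?_, ?_, ?_, ?_, ?_⟩
  · refine hspan S.Bbar ?_ ?_
    · intro x hx
      have h1 : (x : S.W) ∈ Submodule.span Qbar (S.B : Set S.W) := hx
      clear hx
      change g x ∈ Submodule.span Qbar (S.B : Set S.W)
      induction h1 using Submodule.span_induction with
      | mem x hx => exact Submodule.subset_span (hg.betti x hx)
      | zero =>
        rw [map_zero]
        exact zero_mem _
      | add x y _ _ hx hy =>
        rw [map_add]
        exact add_mem hx hy
      | smul c x _ hx =>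
        have h2 : g (c • x) = c • g x := map_smul g (c : ℂ) x
        rw [h2]
        exact Submodule.smul_mem _ c hx
    · rw [eq_top_iff, ← S.cx_B]
      exact Submodule.span_mono Submodule.subset_span
  · exact hspan S.D hg.deRham S.span_D
  · intro l x hx
    have hcomm : ∀ p, hpr S p (g x) = g (hpr S p x) := by
      intro p
      exact DT.map_hodgeEnd hg.hodge _ x
    obtain ⟨u, -, hu2, hxu⟩ := hodge_comp (top_hodge S) (Submodule.mem_top (x := x))
    have h1 : ∀ p ∈ Finset.range (S.wt + 1), hpr S p x = u p := by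
      intro p hp
      conv_lhs => rw [hxu]
      rw [hpr_sum hu2, if_pos hp]
    have h2 : x = ∑ p ∈ Finset.range (S.wt + 1), hpr S p x := by
      conv_lhs => rw [hxu]
      exact Finset.sum_congr rfl fun p hp => (h1 p hp).symm
    rw [h2]
    refine Submodule.sum_mem _ fun p _ => Submodule.mem_iSup_of_mem p ⟨?_, hpr_mem p x⟩
    rw [SetLike.mem_coe, hEl, Module.End.mem_eigenspace_iff] at *
    rw [← hcomm, hx, map_smul]
  · intro l x hx
    rw [hEl, Module.End.mem_eigenspace_iff] at hx ⊢
    rw [DT.map_conj hg.betti, hx, DT.conj_smul]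
    congr 1
    rw [map_pow]
    have h1 : (starRingEnd ℂ) (zeta N) = zeta N ^ (N - 1) := by
      have h2 : (starRingEnd ℂ) (zeta N) * zeta N = 1 := by
        rw [mul_comm, Complex.mul_conj, Complex.normSq_eq_norm_sq,
          (zeta_prim N).norm'_eq_one hN0.ne']
        norm_num
      have h3 : zeta N ^ (N - 1) * zeta N = 1 := by
        rw [← pow_succ, Nat.sub_add_cancel hN0, (zeta_prim N).pow_eq_one]
      exact mul_right_cancel₀ ((zeta_prim N).ne_zero hN0.ne') (h2.trans h3.symm)
    rw [h1, ← pow_mul]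
    apply gc_zeta_pow
    push_cast
    rw [ZMod.natCast_zmod_val, ZMod.natCast_zmod_val, Nat.cast_sub (Nat.one_le_iff_ne_zero.2 hN0.ne')]
    simp
  · have hdim : ∀ l : (ZMod N)ˣ, finrank ℂ (eigPiece N S g a l) = finrank ℂ (eigPiece N S g a 1) := by
      intro l
      choose t ht using fun k : ℕ => gc_trace_rat (gc_pow_isHom hg k).betti
      have htr : ∀ l : (ZMod N)ˣ, (finrank ℂ (eigPiece N S g a l) : ℂ) =
          (N : ℂ)⁻¹ * ∑ k ∈ Finset.range N, ((zeta N ^ ((l : ZMod N) * a).val)⁻¹) ^ k * t k := by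
        intro l
        have hp : LinearMap.IsProj (eigPiece N S g a l)
            (gcProj N g (zeta N ^ ((l : ZMod N) * a).val)) :=
          ⟨hmem l, fun x hx => hself l hx⟩
        rw [← hp.trace, gcProj, map_smul, map_sum, smul_eq_mul]
        congr 1
        refine Finset.sum_congr rfl fun k _ => ?_
        rw [map_smul, ht, smul_eq_mul]
      let z : cyc N := ⟨zeta N, zeta_mem N⟩
      have hzs : ∀ l : (ZMod N)ˣ, ((sAut N l (z ^ a.val) : cyc N) : ℂ) =
          zeta N ^ ((l : ZMod N) * a).val := by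
        intro l
        rw [map_pow, sAut_zeta N l z (zeta_prim N).pow_eq_one, ← pow_mul]
        change zeta N ^ _ = _
        apply gc_zeta_pow
        push_cast
        rw [ZMod.natCast_zmod_val, ZMod.natCast_zmod_val, ZMod.natCast_zmod_val]
      let y : cyc N := (N : cyc N)⁻¹ * ∑ k ∈ Finset.range N, ((z ^ a.val)⁻¹) ^ k * ((t k : ℚ) : cyc N)
      have hy : ∀ l : (ZMod N)ˣ, ((sAut N l y : cyc N) : ℂ) = finrank ℂ (eigPiece N S g a l) := by
        intro l
        rw [htr l, ← hzs l]
        simp only [y, map_mul, map_inv₀, map_natCast, map_sum, map_pow, map_ratCast]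
        push_cast
        rfl
      have hy1 : y = ((finrank ℂ (eigPiece N S g a 1) : ℕ) : cyc N) := by
        apply Subtype.ext
        rw [← sAut_one N y, hy 1]
        push_cast
        rfl
      have h3 := hy l
      rw [hy1, map_natCast] at h3
      push_cast at h3
      exact_mod_cast h3.symm
    intro l l'
    rw [hdim l, hdim l']

/-- The parts on which a field acts through its embeddings form a piece. -/
theorem isPiece_field {N : ℕ} [NeZero N] (hP : Nonempty (Pol S)) {K : Type} [Field K]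
    [NumberField K] {e : K →+* ℂ} (he : LiesIn e N) {κ : K →ₙ+* Module.End ℂ S.W}
    (hκ : ∀ a, IsHom S S (κ a)) {U : (ZMod N)ˣ → Submodule ℂ S.W} (hU : IsFieldPiece N S e κ U) :
    IsPiece N S U := by
  have hUl : ∀ l, U l = eigenpart κ (phi e he.2 l) := fun l =>
    hU l _ ((isPhi_iff e he.2 l _).2 rfl)
  by_cases h1 : κ 1 = 0
  · have h0 : ∀ l, U l = ⊥ := by
      intro l
      rw [hUl, Submodule.eq_bot_iff]
      intro x hx
      have h2 := (Submodule.mem_iInf _).1 hx 1
      rw [Module.End.mem_eigenspace_iff, h1, map_one, one_smul, LinearMap.zero_apply] at h2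
      exact h2.symm
    refine ⟨hP, ?_, ?_, ?_, ?_, ?_⟩
    · intro l
      rw [h0]
      exact bot_le
    · intro l
      rw [h0]
      exact bot_le
    · intro l
      rw [h0]
      exact bot_le
    · intro l x hx
      rw [h0, Submodule.mem_bot] at hx
      rw [hx, map_zero]
      exact zero_mem _
    · intro l l'
      rw [h0, h0]
  · obtain ⟨M, ι, hM, -, hι, heig, -⟩ := exists_sub κ hκ h1
    have hUe : ∀ l, U l = eig ι (phi e he.2 l) := fun l => by rw [hUl, heig]
    have hdet : ∀ l, U l ≤ Submodule.span ℂ {x | x ∈ Submodule.span Qbar (S.B : Set S.W) ∧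
        x ∈ U l} ∧ U l ≤ Submodule.span ℂ {x | x ∈ S.D ∧ x ∈ U l} := by
      intro l
      obtain ⟨z, n, v, ω, Φ, hv, hvs, hω, hωs, hvB, hωD, -⟩ := exists_detPeriod ι hM hι
        (phi e he.2 l)
      rw [hUe]
      constructor
      · conv_lhs => rw [← hvs]
        rw [Submodule.span_le]
        rintro _ ⟨j, rfl⟩
        refine Submodule.subset_span ⟨Submodule.span_mono hM.le (hvB j), ?_⟩
        rw [← hvs]
        exact Submodule.subset_span ⟨j, rfl⟩
      · conv_lhs => rw [← hωs]
        rw [Submodule.span_le]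
        rintro _ ⟨j, rfl⟩
        refine Submodule.subset_span ⟨hωD j, ?_⟩
        rw [← hωs]
        exact Submodule.subset_span ⟨j, rfl⟩
    refine ⟨hP, fun l => (hdet l).1, fun l => (hdet l).2, ?_, ?_, ?_⟩
    · intro l
      rw [hUe]
      exact eig_hodge ι hM hι _
    · intro l x hx
      rw [hUe] at hx ⊢
      rw [← conj_phi]
      exact conj_eig ι hM.le hι hx
    · intro l l'
      rw [hUe, hUe]
      exact finrank_eig ι hM hι _ _

end GD
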