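import Pool.Agent.H65.GC.Eig

/-!
# The Legendre relation for pieces
-/

noncomputable section

namespace GD

open Complex Module NumberField

variable {S : Str} {N : ℕ} {U : (ZMod N)ˣ → Submodule ℂ S.W}

/-- The pairing of `U l` and `U (-l)` is nondegenerate. -/
theorem IsPiece.pair_nondeg (hU : IsPiece N S U) (P : Pol S) (l : (ZMod N)ˣ) {x : S.W}
    (hx : x ∈ U l) (h : ∀ y ∈ U (-l), P.E x y = 0) : x = 0 := by
  obtain ⟨u, hu1, hu2, hxu⟩ := hodge_comp (hU.hodge l) hx
  rw [hxu]
  refine Finset.sum_eq_zero fun p hp => ?_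
  have hp' : p ≤ S.wt := by
    have := Finset.mem_range.1 hp
    omega
  apply pol_pos_ne P hp' (hu2 p)
  have h1 := pol_comp P hu2 hp (S.hodge_conj p hp' _ (hu2 p))
  rw [← hxu] at h1
  rw [← h1]
  exact h _ (hU.conj l _ (hu1 p))

/-- The Legendre relation for traces. -/
theorem IsPiece.leg_trace (hU : IsPiece N S U) (l : (ZMod N)ˣ)
    {T : (R : Str) → Module.End ℂ R.W} (hT : IsNat T) (hst : ∀ l, ∀ x ∈ U l, T S x ∈ U l) :
    trOn (T S) (U l) + trOn (T S) (U (-l)) =
      (finrank ℂ (U l) * S.wt : ℕ) * DT.cc T := by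
  classical
  obtain ⟨P⟩ := hU.pol
  rw [trOn_of_stable (hst l), trOn_of_stable (hst _)]
  let A := U l
  let V := U (-l)
  let Φ : A →ₗ[ℂ] Module.Dual ℂ V :=
    { toFun := fun x => (P.E (x : S.W)).comp V.subtype
      map_add' := fun x y => by
        ext z
        simp
      map_smul' := fun c x => by
        ext z
        simp }
  have hΦ : ∀ (x : A) (y : V), Φ x y = P.E (x : S.W) (y : S.W) := fun _ _ => rfl
  have hinj : Function.Injective Φ := by
    rw [← LinearMap.ker_eq_bot, LinearMap.ker_eq_bot']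
    intro x hx
    apply Subtype.ext
    apply hU.pair_nondeg P l x.2
    intro y hy
    exact LinearMap.congr_fun hx ⟨y, hy⟩
  have hfr : finrank ℂ A = finrank ℂ V := hU.rank _ _
  let Ψ : A ≃ₗ[ℂ] Module.Dual ℂ V :=
    LinearMap.linearEquivOfInjective Φ hinj (hfr.trans (Subspace.dual_finrank_eq).symm)
  have hΨ : ∀ (x : A), Ψ x = Φ x := fun _ => rfl
  let TU : Module.End ℂ A := (T S).restrict (hst l)
  let TV : Module.End ℂ V := (T S).restrict (hst _)
  have hTU : ∀ x : A, ((TU x : A) : S.W) = T S x := fun _ => rfl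
  have hTV : ∀ x : V, ((TV x : V) : S.W) = T S x := fun _ => rfl
  let k : ℂ := S.wt * DT.cc T
  have key : Ψ.conj TU = Module.Dual.transpose (R := ℂ) (k • (1 : Module.End ℂ V) - TV) := by
    apply LinearMap.ext
    intro f
    obtain ⟨x, rfl⟩ := Ψ.surjective f
    rw [LinearEquiv.conj_apply_apply, LinearEquiv.symm_apply_apply]
    apply LinearMap.ext
    intro y
    rw [hΨ, hΦ, hTU, Module.Dual.transpose_apply, LinearMap.comp_apply, hΨ, hΦ]
    have h1 := DT.pol_der hT P (x : S.W) (y : S.W)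
    have h2 : (((k • (1 : Module.End ℂ V) - TV) y : V) : S.W) = k • (y : S.W) - T S y := rfl
    rw [h2, map_sub, map_smul, smul_eq_mul]
    linear_combination h1
  have h1 : LinearMap.trace ℂ A TU = k * finrank ℂ V - LinearMap.trace ℂ V TV := by
    rw [← LinearMap.trace_conj' TU Ψ, key, LinearMap.trace_transpose', map_sub, map_smul,
      smul_eq_mul]
    congr 2
    exact LinearMap.trace_one ℂ V
  change LinearMap.trace ℂ A TU + LinearMap.trace ℂ V TV = _
  rw [h1, ← hfr]
  push_cast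
  ring

/-- Types of conjugate members. -/
theorem IsPiece.leg_type (hU : IsPiece N S U) (l : (ZMod N)ˣ) :
    spaceType S (U l) + spaceType S (U (-l)) = finrank ℂ (U l) * S.wt := by
  have h1 := hU.leg_trace l DT.isNat_hOp (fun l => gc_hOp_stable (hU.hodge l))
  rw [gc_type_trace (hU.hodge l), gc_type_trace (hU.hodge (-l)), DT.cc_hOp, mul_one] at h1
  exact_mod_cast h1

theorem IsPiece.leg_A (hU : IsPiece N S U) (l : (ZMod N)ˣ) (δ : Derivation Qbar ℂ ℂ) :
    trOn (S.A δ) (U l) + trOn (S.A δ) (U (-l)) = (finrank ℂ (U l) * S.wt : ℕ) * cpi δ := by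
  have h1 := hU.leg_trace l (isNat_A δ) (fun l => gc_A_stable (hU.betti l) (hU.deRham l) δ)
  rw [cc_A] at h1
  exact h1

/-- The types of a piece, one constant for opposite members. -/
theorem IsPiece.type_odd [NeZero N] (hU : IsPiece N S U) :
    ∀ l, (spaceType S (U l) : ℚ) + spaceType S (U (-l)) =
      ((finrank ℂ (U 1) * S.wt : ℕ) : ℚ) := by
  intro l
  rw [hU.rank 1 l, ← hU.leg_type l]
  push_cast
  rfl

end GD
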