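import Pool.Agent.H65.GC.Ab

/-!
# The conjecture for products of varieties with known cohomology
-/

noncomputable section

namespace GD

open Complex Module NumberField

variable (𝓗 : Cohomology)

/-- The relation for the pieces in the span. -/
theorem Cohomology.rel_of_inSpan {N : ℕ} [NeZero N] (hN : 3 ≤ N) {S : Str}
    {U : (ZMod N)ˣ → Submodule ℂ S.W} (hU : IsPiece N S U) (h : 𝓗.InSpan N S U) :
    RelPiece N S U :=
  𝓗.relation_of_inSpan hN
    (fun _ hT hP _ hg hgN a => GA.rel_eigPiece hT hP.some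
      (fun F _ _ e he => 𝓗.abelian F e he) hg hgN a)
    (fun _ hT hP K _ _ e he _ hκ _ hU' => GA.rel_fieldPiece hT hP.some
      (𝓗.abelian K e ⟨N, he⟩) he hκ hU') hU h

/-- The relation for an action which is, modulo the part of abelian type, a rational combination
of automorphisms of finite order whose eigenspaces are in the span. -/
theorem Cohomology.factor_of_abSpan {S : Str} (P : Pol S) {K : Type} [Field K] [NumberField K]
    {e : K →+* ℂ} (he : ∃ d, LiesIn e d) {κ : K →ₙ+* Module.End ℂ S.W}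
    (hκ : ∀ a, IsHom S S (κ a)) (hk : ∀ a, ∃ y ∈ Submodule.span ℚ (𝓗.goodAut S),
      ∀ x, κ a x - y x ∈ 𝓗.abSpan S) : FactorRelation κ e := by
  classical
  obtain ⟨M, hM, hcx, hG⟩ := 𝓗.exists_ab S
  have hst : ∀ f, IsHom S S f → ∀ x ∈ S.cx M, f x ∈ S.cx M := by
    intro f hf
    rw [hcx]
    exact fun x hx => 𝓗.abSpan_stable hf hx
  obtain ⟨M', hM', hc, hst'⟩ := exists_stable_compl P hM hst
  have PT := subPol S M hM P
  have P0 := subPol S M' hM' P
  let G0 : Set (Module.End ℂ (subStr S M' hM').W) := {u | ∃ (g : Module.End ℂ S.W)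
    (hg : g ∈ 𝓗.goodAut S), u = subEnd S M' hM' g (hst' g hg.1)}
  have h1 : ∀ u ∈ G0, IsHom (subStr S M' hM') (subStr S M' hM') u := by
    rintro _ ⟨g, hg, rfl⟩
    exact subEnd_isHom S M' hM' hg.1 _
  have h2 : ∀ u ∈ G0, ∃ m, 0 < m ∧ u ^ m = 1 ∧ ∀ (N : ℕ) [NeZero N], 3 ≤ N → m ∣ N → ∀ a,
      RelPiece N (subStr S M' hM') (eigPiece N (subStr S M' hM') u a) := by
    rintro _ ⟨g, hg, rfl⟩
    obtain ⟨hgh, m, hm, hgm, hspan⟩ := hg
    refine ⟨m, hm, subEnd_pow S M' hM' _ hgm, fun N _ hN hmN a => ?_⟩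
    have hgN : g ^ N = 1 := by
      obtain ⟨k, rfl⟩ := hmN
      rw [pow_mul, hgm, one_pow]
    have hT := isPiece_eig ⟨PT⟩ (subEnd_isHom S M hM hgh (hst g hgh))
      (subEnd_pow S M hM (hst g hgh) hgN) a
    have h0 := isPiece_eig ⟨P0⟩ (subEnd_isHom S M' hM' hgh (hst' g hgh))
      (subEnd_pow S M' hM' (hst' g hgh) hgN) a
    have hinv := defect_invariant gammaSpec hN (N := N) (cls := Pool.Agent.H11.GD.cls)
    have e1 := hinv.split ⟨P⟩ hc hT h0
    rw [← gcs_eig_split hM hM' hc (hst g hgh) (hst' g hgh) a,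
      (relPiece_iff gammaSpec hN (isPiece_eig ⟨P⟩ hgh hgN a)).1
        (𝓗.rel_of_inSpan hN (isPiece_eig ⟨P⟩ hgh hgN a) (hspan N hN hmN a)),
      (relPiece_iff gammaSpec hN hT).1 (GA.rel_eigPiece hG PT
        (fun F _ _ e he => 𝓗.abelian F e he) (subEnd_isHom S M hM hgh (hst g hgh))
        (subEnd_pow S M hM (hst g hgh) hgN) a), zero_add] at e1
    exact (relPiece_iff gammaSpec hN h0).2 e1.symm
  choose y hy hyt using fun i => hk (bas K i)
  choose y0 hy0 hyi using fun i => exists_sub_span hM' (G := 𝓗.goodAut S)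
    (fun g hg => hst' g hg.1) (hy i)
  choose m hm hgood using fun i => GA.good_of_span P0 h1 h2 (hy0 i)
  have hcd := liesIn_conductor he
  let D : ℕ := conductor e * (3 * ∏ i, m i)
  have hD0 : 0 < 3 * ∏ i, m i := Nat.mul_pos (by norm_num) (Finset.prod_pos fun i _ => hm i)
  have : NeZero D := ⟨(Nat.mul_pos hcd.1 hD0).ne'⟩
  have : NeZero (conductor e) := ⟨hcd.1.ne'⟩
  have : NeZero (3 * ∏ i, m i) := ⟨hD0.ne'⟩
  have hD3 : 3 ≤ D := by
    have h4 : 0 < ∏ i, m i := Finset.prod_pos fun i _ => hm i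
    have h5 : 3 * 1 ≤ 3 * ∏ i, m i := Nat.mul_le_mul_left 3 h4
    calc 3 = 1 * (3 * 1) := rfl
      _ ≤ conductor e * (3 * ∏ i, m i) := Nat.mul_le_mul hcd.1 h5
  have hD : LiesIn e D := ⟨NeZero.pos D, fun x => cyc_le _ _ (hcd.2 x)⟩
  -- the two restrictions of the action
  have hsT : ∀ a, ∀ x ∈ S.cx M, κ a x ∈ S.cx M := fun a => hst _ (hκ a)
  have hs0 : ∀ a, ∀ x ∈ S.cx M', κ a x ∈ S.cx M' := fun a => hst' _ (hκ a)
  have hkT := subAct_isHom M hM hκ hsT
  have hk0 := subAct_isHom M' hM' hκ hs0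
  have hmul : ∀ i, subAct M' hM' κ hs0 (bas K i) = y0 i := by
    intro i
    apply LinearMap.ext
    intro x
    apply subInc_inj S M' hM'
    rw [hyi]
    change κ (bas K i) (subInc S M' hM' x) = _
    have h3 : κ (bas K i) (subInc S M' hM' x) - y i (subInc S M' hM' x) ∈ S.cx M := by
      rw [hcx]
      exact hyt i _
    have h4 : κ (bas K i) (subInc S M' hM' x) - y i (subInc S M' hM' x) ∈ S.cx M' := by
      refine sub_mem (hs0 _ _ x.2) ?_
      rw [← hyi]
      exact (y0 i x).2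
    exact sub_eq_zero.1 (Submodule.disjoint_def.1 hc.disjoint _ h3 h4)
  have hr0 : RelPiece D (subStr S M' hM')
      (fun l => eigenpart (subAct M' hM' κ hs0) (phi e hD.2 l)) :=
    GA.relPiece_of_good hk0 hD.2 fun δ c hcf i => by
      have hmD : m i ∣ D := ((Finset.dvd_prod_of_mem m (Finset.mem_univ i)).trans
        (Dvd.intro_left 3 rfl)).trans (Dvd.intro_left _ rfl)
      rw [hmul]
      exact hgood i D hmD hD3 δ c hcf
  have hfT : IsFieldPiece D (subStr S M hM) e (subAct M hM κ hsT)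
      (fun l => eigenpart (subAct M hM κ hsT) (phi e hD.2 l)) :=
    fun l τ hτ => by rw [(isPhi_iff e hD.2 l τ).1 hτ]
  have hf0 : IsFieldPiece D (subStr S M' hM') e (subAct M' hM' κ hs0)
      (fun l => eigenpart (subAct M' hM' κ hs0) (phi e hD.2 l)) :=
    fun l τ hτ => by rw [(isPhi_iff e hD.2 l τ).1 hτ]
  have hf : IsFieldPiece D S e κ (fun l => eigenpart κ (phi e hD.2 l)) :=
    fun l τ hτ => by rw [(isPhi_iff e hD.2 l τ).1 hτ]
  have hrT := GA.rel_fieldPiece hG PT (𝓗.abelian K e he) hD hkT hfT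
  have hpT := isPiece_field ⟨PT⟩ hD hkT hfT
  have hp0 := isPiece_field ⟨P0⟩ hD hk0 hf0
  have hp := isPiece_field ⟨P⟩ hD hκ hf
  have hinv := defect_invariant gammaSpec hD3 (N := D) (cls := Pool.Agent.H11.GD.cls)
  have e1 := hinv.split ⟨P⟩ hc hpT hp0
  have e2 : (fun l => eigenpart κ (phi e hD.2 l)) = fun l =>
      (eigenpart (subAct M hM κ hsT) (phi e hD.2 l)).map (subInc S M hM) ⊔
        (eigenpart (subAct M' hM' κ hs0) (phi e hD.2 l)).map (subInc S M' hM') :=
    funext fun l => gcs_part_split hM hM' hc hsT hs0 _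
  rw [← e2, (relPiece_iff gammaSpec hD3 hpT).1 hrT, (relPiece_iff gammaSpec hD3 hp0).1 hr0,
    add_zero] at e1
  exact GA.factorRelation_of_piece P hκ hD hD3 hf ((relPiece_iff gammaSpec hD3 hp).2 e1)

/-- The relation for the central actions on known structures. -/
theorem Cohomology.central_of_known {F : Type} [Field F] [NumberField F] {e : F →+* ℂ}
    (he : ∃ d, LiesIn e d) {C : Str → Prop} (hC : ∀ S, C S → Nonempty (Pol S) ∧ 𝓗.Known S e) :
    CentralFor C e := by
  intro K _ _ i him hG hc S hS κ hκ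
  obtain ⟨⟨P⟩, hK⟩ := hC S hS
  have hlies : ∃ d, LiesIn (e.comp i) d := by
    obtain ⟨d, hd⟩ := he
    exact ⟨d, hd.1, fun x => hd.2 (i x)⟩
  rcases hK K i him hG hc κ hκ with ⟨N, _, U, hN, hU, hspan⟩ | h
  · have hN3 : 3 ≤ N := three_le hN.2 him
    exact factor_of_piece ⟨P⟩ him hκ.2.1 hN hU
      (𝓗.rel_of_inSpan hN3 (isPiece_field ⟨P⟩ hN hκ.2.1 hU) hspan)
  · exact 𝓗.factor_of_abSpan P hlies hκ.2.1 h

/-- The conjecture for the structures generated by known structures. -/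
theorem Cohomology.triples_of_known {F : Type} [Field F] [NumberField F] {e : F →+* ℂ}
    (he : ∃ d, LiesIn e d) {C : Str → Prop} (hC : ∀ S, C S → Nonempty (Pol S) ∧ 𝓗.Known S e) :
    TriplesFor (Gen C) e := fun _ hR A =>
  det_suffices (fun S hS => (hC S hS).1) e he
    (detFor_of_central (fun S hS => (hC S hS).1) (𝓗.central_of_known he hC)) hR A

/-- The conjecture for the products of varieties all of whose cohomology groups are known. -/
theorem Cohomology.triples_of_products {F : Type} [Field F] [NumberField F] {e : F →+* ℂ}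
    (he : ∃ d, LiesIn e d) {𝒱 : Var → Prop} (h𝒱 : ∀ X, 𝒱 X → ∀ i, 𝓗.Known (𝓗.H X i) e)
    {Z : Var} (hZ : Products 𝒱 Z) (m : ℕ) (A : Adm (𝓗.H Z m) F) : Relation A e := by
  refine 𝓗.triples_of_known he ?_ (𝓗.H Z m) (𝓗.gen_products hZ m) A
  rintro _ ⟨X, hX, i, rfl⟩
  exact ⟨𝓗.polarised X i, h𝒱 X hX i⟩

/-- Structures of abelian type are known. -/
theorem Cohomology.known_of_gen {F : Type} [Field F] {e : F →+* ℂ} {S : Str}
    (hS : Gen 𝓗.FirstDegree S) : 𝓗.Known S e := by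
  intro K _ _ i him hG hc κ hκ
  refine Or.inr fun a => ⟨0, zero_mem _, fun x => ?_⟩
  rw [LinearMap.zero_apply, sub_zero]
  exact Submodule.subset_span ⟨S, κ a, x, hS, hκ.2.1 a, rfl⟩

end GD
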