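import Pool.Agent.H65.GC.Pieces
import Pool.Agent.H26.DT.Final

/-!
# Pieces: bases, traces, types
-/

noncomputable section

namespace GD

open Complex Module NumberField

variable {S : Str}

/-- A basis inside a set which spans. -/
theorem gc_exists_basis {W : Type} [AddCommGroup W] [Module ℂ W] [FiniteDimensional ℂ W]
    {U : Submodule ℂ W} {s : Set W} (h : U ≤ Submodule.span ℂ {x | x ∈ s ∧ x ∈ U}) :
    ∃ v : Fin (finrank ℂ U) → W, LinearIndependent ℂ v ∧ Submodule.span ℂ (Set.range v) = U ∧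
      ∀ j, v j ∈ s := by
  classical
  obtain ⟨b, hb1, hb2, hb3⟩ := exists_linearIndependent ℂ {x | x ∈ s ∧ x ∈ U}
  have hU : Submodule.span ℂ b = U := by
    rw [hb2]
    apply le_antisymm _ h
    rw [Submodule.span_le]
    exact fun x hx => hx.2
  have hfin : b.Finite := hb3.setFinite
  have : Fintype b := hfin.fintype
  have hcard : Fintype.card b = finrank ℂ U := by
    have h1 := finrank_span_set_eq_card hb3
    rw [hU] at h1
    rw [h1, Set.toFinset_card]
  let e : Fin (finrank ℂ U) ≃ b := (Fintype.equivFinOfCardEq hcard).symm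
  refine ⟨fun i => (e i : W), hb3.comp _ e.injective, ?_, fun j => (hb1 (e j).2).1⟩
  refine Eq.trans ?_ hU
  congr 1
  ext y
  constructor
  · rintro ⟨i, rfl⟩
    exact (e i).2
  · intro hy
    exact ⟨e.symm ⟨y, hy⟩, by simp⟩

/-- The logarithmic derivative of a determinant of periods. -/
theorem IsSpacePeriod.trace {U : Submodule ℂ S.W} {z : ℂ} (hz : IsSpacePeriod S U z) :
    z ≠ 0 ∧ ∀ δ : Derivation Qbar ℂ ℂ, trOn (S.A δ) U = δ z / z := by
  obtain ⟨n, v, ω, Φ, hv, hvs, hω, hωs, hvB, hωD, hΦ, rfl⟩ := hz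
  have h1 : ∀ δ : Derivation Qbar ℂ ℂ, Φ.det ≠ 0 ∧ trOn (S.A δ) U = δ Φ.det / Φ.det :=
    fun δ => trace_A_matrix δ _ v ω Φ hv hvs hω hωs hvB hωD hΦ
  exact ⟨(h1 0).1, fun δ => (h1 δ).2⟩

/-- Existence of determinants of periods. -/
theorem gc_exists_period {U : Submodule ℂ S.W}
    (hB : U ≤ Submodule.span ℂ {x | x ∈ Submodule.span Qbar (S.B : Set S.W) ∧ x ∈ U})
    (hD : U ≤ Submodule.span ℂ {x | x ∈ S.D ∧ x ∈ U}) : ∃ z, IsSpacePeriod S U z := by
  obtain ⟨v, hv, hvs, hvB⟩ :=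
    gc_exists_basis (s := (Submodule.span Qbar (S.B : Set S.W) : Set S.W)) hB
  obtain ⟨ω, hω, hωs, hωD⟩ := gc_exists_basis (s := (S.D : Set S.W)) hD
  have hP : ∀ i, ∃ c : Fin (finrank ℂ U) → ℂ, ∑ j, c j • v j = ω i := by
    intro i
    apply (Submodule.mem_span_range_iff_exists_fun ℂ).1
    rw [hvs, ← hωs]
    exact Submodule.subset_span ⟨i, rfl⟩
  choose Φ hΦ using hP
  exact ⟨_, _, v, ω, Φ, hv, hvs, hω, hωs, hvB, hωD, fun i => (hΦ i).symm, rfl⟩

/-- Stability of a subspace with algebraic bases. -/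
theorem gc_A_stable {U : Submodule ℂ S.W}
    (hB : U ≤ Submodule.span ℂ {x | x ∈ Submodule.span Qbar (S.B : Set S.W) ∧ x ∈ U})
    (hD : U ≤ Submodule.span ℂ {x | x ∈ S.D ∧ x ∈ U}) (δ : Derivation Qbar ℂ ℂ) :
    ∀ x ∈ U, S.A δ x ∈ U := by
  have h1 : ∀ x ∈ Submodule.span ℂ {x | x ∈ Submodule.span Qbar (S.B : Set S.W) ∧ x ∈ U},
      x ∈ U ∧ S.nabB δ x ∈ U := by
    intro x hx
    induction hx using Submodule.span_induction with
    | mem x hx =>
      refine ⟨hx.2, ?_⟩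
      rw [S.nabB_Bbar δ hx.1]
      exact zero_mem _
    | zero =>
      rw [map_zero]
      exact ⟨zero_mem _, zero_mem _⟩
    | add x y _ _ hx hy =>
      rw [map_add]
      exact ⟨add_mem hx.1 hy.1, add_mem hx.2 hy.2⟩
    | smul a x _ hx =>
      rw [S.nabB_smul]
      exact ⟨U.smul_mem _ hx.1, add_mem (U.smul_mem _ hx.1) (U.smul_mem _ hx.2)⟩
  have h2 : ∀ x ∈ Submodule.span ℂ {x | x ∈ S.D ∧ x ∈ U}, x ∈ U ∧ S.nabD δ x ∈ U := by
    intro x hx
    induction hx using Submodule.span_induction with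
    | mem x hx =>
      refine ⟨hx.2, ?_⟩
      rw [S.nabD_D δ hx.1]
      exact zero_mem _
    | zero =>
      rw [map_zero]
      exact ⟨zero_mem _, zero_mem _⟩
    | add x y _ _ hx hy =>
      rw [map_add]
      exact ⟨add_mem hx.1 hy.1, add_mem hx.2 hy.2⟩
    | smul a x _ hx =>
      rw [S.nabD_smul]
      exact ⟨U.smul_mem _ hx.1, add_mem (U.smul_mem _ hx.1) (U.smul_mem _ hx.2)⟩
  intro x hx
  rw [S.A_apply]
  exact sub_mem (h1 x (hB hx)).2 (h2 x (hD hx)).2

theorem gc_hOp_stable {U : Submodule ℂ S.W} (hU : U ≤ ⨆ p, U ⊓ S.hodge p) :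
    ∀ x ∈ U, DT.hOp S x ∈ U := by
  intro x hx
  rw [hOp_eq, LinearMap.sum_apply]
  exact Submodule.sum_mem _ fun p _ => U.smul_mem _ (hpr_stable hU p x hx)

/-- The trace of the Hodge operator is the type. -/
theorem gc_type_trace {U : Submodule ℂ S.W} (hU : U ≤ ⨆ p, U ⊓ S.hodge p) :
    trOn (DT.hOp S) U = (spaceType S U : ℂ) := by
  rw [trOn_hOp hU, spaceType]
  push_cast
  rfl

/-- Additivity of traces. -/
theorem gc_trOn_sup {W : Type} [AddCommGroup W] [Module ℂ W] [FiniteDimensional ℂ W]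
    {T : Module.End ℂ W} {U U' : Submodule ℂ W} (h : ∀ x ∈ U, T x ∈ U)
    (h' : ∀ x ∈ U', T x ∈ U') (hd : Disjoint U U') : trOn T (U ⊔ U') = trOn T U + trOn T U' := by
  have hs : ∀ x ∈ U ⊔ U', T x ∈ U ⊔ U' := by
    intro x hx
    obtain ⟨u, hu, u', hu', rfl⟩ := Submodule.mem_sup.1 hx
    rw [map_add]
    exact add_mem (Submodule.mem_sup_left (h u hu)) (Submodule.mem_sup_right (h' u' hu'))
  rw [trOn_of_stable h, trOn_of_stable h', trOn_of_stable hs]
  let P : Submodule ℂ (U ⊔ U' : Submodule ℂ W) := U.comap (U ⊔ U').subtype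
  let Q : Submodule ℂ (U ⊔ U' : Submodule ℂ W) := U'.comap (U ⊔ U').subtype
  have hPQ : IsCompl P Q := by
    constructor
    · rw [Submodule.disjoint_def] at hd ⊢
      intro x hx hx'
      exact Subtype.ext (hd _ hx hx')
    · rw [codisjoint_iff, eq_top_iff]
      rintro ⟨x, hx⟩ -
      obtain ⟨u, hu, u', hu', rfl⟩ := Submodule.mem_sup.1 hx
      exact Submodule.mem_sup.2 ⟨⟨u, Submodule.mem_sup_left hu⟩, hu,
        ⟨u', Submodule.mem_sup_right hu'⟩, hu', rfl⟩
  let T0 := T.restrict hs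
  have hP : ∀ x ∈ P, T0 x ∈ P := fun x hx => h _ hx
  have hQ : ∀ x ∈ Q, T0 x ∈ Q := fun x hx => h' _ hx
  have hint : DirectSum.IsInternal ![P, Q] := by
    rw [DirectSum.isInternal_submodule_iff_iSupIndep_and_iSup_eq_top]
    constructor
    · rw [iSupIndep_pair (i := 0) (j := 1) (by decide) (by
        intro k
        fin_cases k <;> simp)]
      exact hPQ.disjoint
    · rw [eq_top_iff, ← hPQ.sup_eq_top]
      exact sup_le (le_iSup ![P, Q] 0) (le_iSup ![P, Q] 1)
  have hm : ∀ i : Fin 2, Set.MapsTo T0 (![P, Q] i) (![P, Q] i) := by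
    intro i
    fin_cases i
    · exact hP
    · exact hQ
  rw [LinearMap.trace_eq_sum_trace_restrict hint hm, Fin.sum_univ_two]
  have e1 : LinearMap.trace ℂ P (T0.restrict hP) = LinearMap.trace ℂ U (T.restrict h) := by
    let e : P ≃ₗ[ℂ] U := Submodule.comapSubtypeEquivOfLe le_sup_left
    rw [← LinearMap.trace_conj' (T0.restrict hP) e]
    rfl
  have e2 : LinearMap.trace ℂ Q (T0.restrict hQ) = LinearMap.trace ℂ U' (T.restrict h') := by
    let e : Q ≃ₗ[ℂ] U' := Submodule.comapSubtypeEquivOfLe le_sup_right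
    rw [← LinearMap.trace_conj' (T0.restrict hQ) e]
    rfl
  rw [← e1, ← e2]
  rfl

end GD
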