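import Pool.Agent.H65.AP.Defs

/-!
# Pieces of polarised structures
-/

noncomputable section

namespace GD

open Complex

/-- `f` is a morphism from `S` to the Tate twist of `S'` by `n`. -/
structure IsTwist (S S' : Str) (n : ℕ) (f : S.W →ₗ[ℂ] S'.W) : Prop where
  wt : S'.wt = S.wt + 2 * n
  betti : ∀ x ∈ S.B, f x ∈ S'.B
  deRham : ∀ x ∈ S.D, (2 * Real.pi * I) ^ n • f x ∈ S'.D
  hodge : ∀ p, ∀ x ∈ S.hodge p, f x ∈ S'.hodge (p + n)

/-! ### Pieces of level `N` -/

/-- The Hodge type of the determinant of the subspace `U`: the sum of the `p` in the Hodge types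
`(p, q)` of `U`, counted with multiplicity. -/
def spaceType (S : Str) (U : Submodule ℂ S.W) : ℕ :=
  ∑ p ∈ Finset.range (S.wt + 1), p * Module.finrank ℂ (U ⊓ S.hodge p : Submodule ℂ S.W)

/-- `z` is a determinant of periods of the subspace `U`: the determinant of a matrix which
expresses a basis `ω` of `U` consisting of de Rham vectors in a basis `v` of `U` consisting of
vectors of the span of the rational form over the algebraic numbers. -/
def IsSpacePeriod (S : Str) (U : Submodule ℂ S.W) (z : ℂ) : Prop :=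
  ∃ (n : ℕ) (v ω : Fin n → S.W) (P : Matrix (Fin n) (Fin n) ℂ),
    LinearIndependent ℂ v ∧ Submodule.span ℂ (Set.range v) = U ∧
    LinearIndependent ℂ ω ∧ Submodule.span ℂ (Set.range ω) = U ∧
    (∀ j, v j ∈ Submodule.span Qbar (S.B : Set S.W)) ∧ (∀ j, ω j ∈ S.D) ∧
    (∀ i, ω i = ∑ j, P i j • v j) ∧ z = P.det

/-- The family `U` of subspaces of the polarised structure `S` is a piece of level `N`: `U l` has
bases over the algebraic numbers for the rational form and for the de Rham form, it is the sum of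
its Hodge pieces, `U (-l)` is the complex conjugate of `U l`, and the dimension is constant. -/
structure IsPiece (N : ℕ) (S : Str) (U : (ZMod N)ˣ → Submodule ℂ S.W) : Prop where
  pol : Nonempty (Pol S)
  betti : ∀ l, U l ≤ Submodule.span ℂ {x | x ∈ Submodule.span Qbar (S.B : Set S.W) ∧ x ∈ U l}
  deRham : ∀ l, U l ≤ Submodule.span ℂ {x | x ∈ S.D ∧ x ∈ U l}
  hodge : ∀ l, U l ≤ ⨆ p, U l ⊓ S.hodge p
  conj : ∀ l, ∀ x ∈ U l, S.conj x ∈ U (-l)
  rank : ∀ l l', Module.finrank ℂ (U l) = Module.finrank ℂ (U l')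

/-- The Tate classes of `S`: the complex span of the rational vectors `x` of type `(r, r)`, `2 r`
the weight, for which `(2 π i) ^ r x` is a de Rham vector. Classes of algebraic cycles are of this
kind. -/
def tateSpan (S : Str) : Submodule ℂ S.W :=
  Submodule.span ℂ {x | x ∈ S.B ∧ ∃ r, S.wt = 2 * r ∧ x ∈ S.hodge r ∧
    (2 * Real.pi * I) ^ r • x ∈ S.D}

/-- `δ` is an additive invariant of the pieces of level `N`: it does not change under
isomorphisms and Tate twists, it is additive for direct sums, and it vanishes on pieces spanned by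
Tate classes and on pieces whose members are stable under complex conjugation. -/
structure IsInvariant (N : ℕ) {V : Type} [AddCommGroup V]
    (δ : (S : Str) → ((ZMod N)ˣ → Submodule ℂ S.W) → V) : Prop where
  iso : ∀ (S S' : Str) (n : ℕ) (f : S.W →ₗ[ℂ] S'.W) (U : (ZMod N)ˣ → Submodule ℂ S.W)
    (U' : (ZMod N)ˣ → Submodule ℂ S'.W), IsTwist S S' n f → IsPiece N S U → IsPiece N S' U' →
    (∀ l, Set.BijOn f (U l) (U' l)) → δ S U = δ S' U'
  add : ∀ (S : Str) (U U' : (ZMod N)ˣ → Submodule ℂ S.W), IsPiece N S U → IsPiece N S U' →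
    (∀ l, Disjoint (U l) (U' l)) → δ S (fun l => U l ⊔ U' l) = δ S U + δ S U'
  tate : ∀ (S : Str) (U : (ZMod N)ˣ → Submodule ℂ S.W), IsPiece N S U →
    (∀ l, U l ≤ tateSpan S) → δ S U = 0
  real : ∀ (S : Str) (U : (ZMod N)ˣ → Submodule ℂ S.W), IsPiece N S U →
    (∀ l, U (-l) = U l) → δ S U = 0

/-- The eigenspaces of `g` for the conjugates of the root of unity `exp (2 π i a / N)`. -/
def eigPiece (N : ℕ) (S : Str) (g : Module.End ℂ S.W) (a : ZMod N) (l : (ZMod N)ˣ) :
    Submodule ℂ S.W :=
  eigSpace S g N (l * a)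

/-- The parts on which the field `K` acts through the conjugates of the embedding `e`: `U l` is the
part on which `K` acts through `τ` if `τ` is `e` followed by the automorphism of `ℚ(μ_N)` given
by `l`. -/
def IsFieldPiece (N : ℕ) (S : Str) {K : Type} [Field K] (e : K →+* ℂ)
    (κ : K →ₙ+* Module.End ℂ S.W) (U : (ZMod N)ˣ → Submodule ℂ S.W) : Prop :=
  ∀ l τ, IsPhi e N l τ → U l = eigenpart κ τ

/-- The relation of Gross and Deligne for the determinants of the members of a piece. -/
def RelPiece (N : ℕ) [NeZero N] (S : Str) (U : (ZMod N)ˣ → Submodule ℂ S.W) : Prop :=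
  ∀ ε : ZMod N → ℚ,
    (∀ l : (ZMod N)ˣ, (N : ℚ) * spaceType S (U l) =
      ∑ a ∈ Finset.univ.erase (0 : ZMod N), ε a * (((l : ZMod N) * a).val : ℚ)) →
    ∀ (l : (ZMod N)ˣ) (z : ℂ), IsSpacePeriod S (U l) z → Sim z (gammaProd N ε l)

end GD
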