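import Pool.Agent.H65.GC.Alt
import Pool.Agent.H26.FM.Cen

/-!
# The relation for pieces in the span, and for central actions
-/

noncomputable section

namespace GD

open Complex Module NumberField

theorem IsFactorPeriod.space {S : Str} {K : Type} [Field K] {κ : K →ₙ+* Module.End ℂ S.W}
    {τ : K →+* ℂ} {z : ℂ} (h : IsFactorPeriod κ τ z) : IsSpacePeriod S (eigenpart κ τ) z := by
  classical
  obtain ⟨n, v, P, hv, hvs, hB, rfl, hz⟩ := h
  have hmem : ∀ i, v i ∈ eigenpart κ τ := fun i => by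
    rw [← hvs]
    exact Submodule.subset_span ⟨i, rfl⟩
  have hω : LinearIndependent ℂ (fun i => ∑ j, P i j • v j) := by
    rw [Fintype.linearIndependent_iff]
    intro c hc i
    have h1 : ∑ j, (∑ i, c i * P i j) • v j = 0 := by
      rw [← hc]
      simp only [Finset.smul_sum, Finset.sum_smul, smul_smul]
      rw [Finset.sum_comm]
    have h2 := Fintype.linearIndependent_iff.1 hv _ h1
    have h3 : Matrix.vecMul c P = 0 := by
      funext j
      exact h2 j
    have h4 := Matrix.eq_zero_of_vecMul_eq_zero hz h3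
    exact congrFun h4 i
  refine ⟨n, v, fun i => ∑ j, P i j • v j, P, hv, hvs, hω, ?_, fun j => (hB j).1,
    fun j => (hB j).2, fun _ => rfl, rfl⟩
  have hle : Submodule.span ℂ (Set.range fun i => ∑ j, P i j • v j) ≤ eigenpart κ τ := by
    rw [Submodule.span_le]
    rintro _ ⟨i, rfl⟩
    exact Submodule.sum_mem _ fun j _ => Submodule.smul_mem _ _ (hmem j)
  apply Submodule.eq_of_le_of_finrank_eq hle
  rw [finrank_span_eq_card hω, ← hvs, finrank_span_eq_card hv]

/-- The relation for an action of an imaginary field from the relation for its piece. -/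
theorem factor_of_piece {S : Str} (hP : Nonempty (Pol S)) {K : Type} [Field K] [NumberField K]
    {e : K →+* ℂ} (him : ∃ x, (e x).im ≠ 0) {κ : K →ₙ+* Module.End ℂ S.W}
    (hκ : ∀ a, IsHom S S (κ a)) {N : ℕ} [NeZero N] (he : LiesIn e N)
    {U : (ZMod N)ˣ → Submodule ℂ S.W} (hU : IsFieldPiece N S e κ U) (h : RelPiece N S U) :
    FactorRelation κ e := by
  classical
  have hpc := isPiece_field hP he hκ hU
  have hUl : ∀ l, U l = eigenpart κ (phi e he.2 l) := fun l =>
    hU l _ ((isPhi_iff e he.2 l _).2 rfl)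
  have hex : ∀ τ : K →+* ℂ, ∃ z, IsSpacePeriod S (eigenpart κ τ) z := by
    intro τ
    obtain ⟨l, rfl⟩ := exists_phi e he.2 τ
    rw [← hUl]
    exact gc_exists_period (hpc.betti l) (hpc.deRham l)
  choose c hc using hex
  have hp : ∀ σ, factorType κ σ + factorType κ (ComplexEmbedding.conjugate σ) =
      finrank ℂ (U 1) * S.wt := by
    intro σ
    obtain ⟨l, rfl⟩ := exists_phi e he.2 σ
    rw [conj_phi, hpc.rank 1 l, ← hpc.leg_type l, hUl, hUl]
    rfl
  have hN : 3 ≤ N := three_le he.2 him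
  have hN0 : (N : ℚ) ≠ 0 := by exact_mod_cast NeZero.ne N
  have h1 : RelAll Pool.Agent.H11.GD.cls N e he.2 c (factorType κ) := by
    intro ε hε l
    have h2 := h ε (by
      intro l
      rw [sum_erase, ← tsum_id, hε, hUl]
      rfl) l (c (phi e he.2 l)) (by
      rw [hUl]
      exact hc _)
    rw [cls_of_sim gammaSpec h2, cls_gammaProd gammaSpec]
  intro d _ hd ε hε l τ hτ z hz
  have hcK := liesIn_conductor ⟨N, he⟩
  rw [← hd] at hcK
  have h5 := h1.change gammaSpec hN hcK.2 hp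
  have hd0 : (d : ℚ) ≠ 0 := by exact_mod_cast NeZero.ne d
  rw [isPhi_iff e hcK.2] at hτ
  subst hτ
  have h6 := h5 ε (by
    intro l
    have h7 := hε l (phi e hcK.2 l) ((isPhi_iff e hcK.2 l _).2 rfl)
    rw [sum_erase, ← tsum_id] at h7
    exact (mul_left_cancel₀ hd0 h7).symm) l
  refine sim_of_cls gammaSpec hz.space.trace.1 (gammaProd_ne d ε l) ?_
  rw [← uVal_eq gammaSpec hz.space, uVal_eq gammaSpec (hc _), h6, cls_gammaProd gammaSpec]

variable (𝓗 : Cohomology)

/-- The relation for the pieces in the span. -/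
theorem Cohomology.relation_of_inSpan {N : ℕ} [NeZero N] (hN : 3 ≤ N)
    (h1 : ∀ T, Gen 𝓗.FirstDegree T → Nonempty (Pol T) → ∀ g, IsHom T T g → g ^ N = 1 → ∀ a,
      RelPiece N T (eigPiece N T g a))
    (h2 : ∀ T, Gen 𝓗.FirstDegree T → Nonempty (Pol T) → ∀ (K : Type) [Field K] [NumberField K]
      (e : K →+* ℂ), LiesIn e N → ∀ κ : K →ₙ+* Module.End ℂ T.W, (∀ a, IsHom T T (κ a)) → ∀ U',
      IsFieldPiece N T e κ U' → RelPiece N T U')
    {S : Str} {U : (ZMod N)ˣ → Submodule ℂ S.W} (hU : IsPiece N S U) (h : 𝓗.InSpan N S U) :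
    RelPiece N S U := by
  rw [relPiece_iff gammaSpec hN hU]
  refine h _ (defect Pool.Agent.H11.GD.cls N) (defect_invariant gammaSpec hN) ?_ ?_ ?_
  · intro T hT hP g hg hgN a
    exact (relPiece_iff gammaSpec hN (isPiece_eig hP hg hgN a)).1 (h1 T hT hP g hg hgN a)
  · intro T hT hP K _ _ e he κ hκ U' hU'
    exact (relPiece_iff gammaSpec hN (isPiece_field hP he hκ hU')).1
      (h2 T hT hP K e he κ hκ U' hU')
  · intro X g a h3 hg n hn
    exact gc_alternating 𝓗 gammaSpec hN X g a h3 hg n hn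

/-- Products of varieties are generated by their factors. -/
theorem Cohomology.gen_products {𝒱 : Var → Prop} {Z : Var} (hZ : Products 𝒱 Z) :
    ∀ m, Gen (fun S => ∃ X, 𝒱 X ∧ ∃ i, S = 𝓗.H X i) (𝓗.H Z m) := by
  induction hZ with
  | base X hX => exact fun m => Gen.base _ ⟨X, hX, m, rfl⟩
  | prod X Y Z _ _ hXYZ ihX ihY =>
    intro m
    obtain ⟨n, i, j, μ, hμ, hs⟩ := 𝓗.kunneth X Y Z hXYZ m
    exact Gen.ten _ n (fun k => 𝓗.H X (i k)) (fun k => 𝓗.H Y (j k)) μ (fun k => ihX _)
      (fun k => ihY _) hμ hs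

end GD
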