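import Pool.Agent.H65.GC.Span
import Pool.Agent.H65.AP.Set

/-!
# The part of abelian type
-/

noncomputable section

namespace GD

open Complex Module NumberField

variable (𝓗 : Cohomology)

/-- The part of abelian type is a substructure of abelian type. -/
theorem Cohomology.exists_ab (S : Str) : ∃ (M : Submodule ℚ S.W) (hM : IsSub S M),
    S.cx M = 𝓗.abSpan S ∧ Gen 𝓗.FirstDegree (subStr S M hM) := by
  classical
  let s : Set S.W := {x | ∃ (T : Str) (f : T.W →ₗ[ℂ] S.W) (t : T.W), Gen 𝓗.FirstDegree T ∧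
    IsHom T S f ∧ x = f t}
  obtain ⟨b, hb1, hb2, hb3⟩ := exists_linearIndependent ℂ s
  have hfin : b.Finite := hb3.setFinite
  have : Fintype b := hfin.fintype
  let e : Fin (Fintype.card b) ≃ b := (Fintype.equivFin b).symm
  choose T f t hT hf ht using fun k : Fin (Fintype.card b) => hb1 (e k).2
  let M : Submodule ℚ S.W := ⨆ k, imgQ (f k) (T k).B
  have hM : IsSub S M := isSub_iSup fun k => isSub_img (hf k) isSub_top
  have hcx : ∀ k, S.cx (imgQ (f k) (T k).B) = LinearMap.range (f k) := by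
    intro k
    rw [cx_imgQ, Str.cx_B, Submodule.map_top]
  have hle : ∀ k x, f k x ∈ S.cx M := by
    intro k x
    have h1 : f k x ∈ S.cx (imgQ (f k) (T k).B) := by
      rw [hcx]
      exact ⟨x, rfl⟩
    exact cx_mono (le_iSup (fun k => imgQ (f k) (T k).B) k) h1
  have hcxM : S.cx M = 𝓗.abSpan S := by
    apply le_antisymm
    · apply cx_iSup_le
      intro k
      rw [hcx]
      rintro _ ⟨x, rfl⟩
      exact Submodule.subset_span ⟨T k, f k, x, hT k, hf k, rfl⟩
    · change Submodule.span ℂ s ≤ _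
      rw [← hb2, Submodule.span_le]
      intro x hx
      have h1 := ht (e.symm ⟨x, hx⟩)
      rw [Equiv.apply_symm_apply] at h1
      rw [show x = _ from h1]
      exact hle _ _
  refine ⟨M, hM, hcxM, ?_⟩
  refine Gen.lin (subStr S M hM) (Fintype.card b) T (fun k => (f k).codRestrict (S.cx M) (hle k))
    hT (fun k => ⟨(hf k).wt, fun x hx => (hf k).betti x hx, fun x hx => (hf k).deRham x hx,
      fun p x hx => (hf k).hodge p x hx⟩) ?_
  rw [eq_top_iff]
  rintro ⟨x, hx⟩ -
  have h1 : S.cx M ≤ (⨆ k, LinearMap.range ((f k).codRestrict (S.cx M) (hle k))).map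
      (S.cx M).subtype := by
    apply cx_iSup_le
    intro k
    rw [hcx, Submodule.map_iSup]
    refine le_trans ?_ (le_iSup _ k)
    rintro _ ⟨y, rfl⟩
    exact ⟨⟨f k y, hle k y⟩, ⟨y, rfl⟩, rfl⟩
  obtain ⟨y, hy, hyx⟩ := h1 hx
  have h3 : y = ⟨x, hx⟩ := Subtype.ext hyx
  rwa [h3] at hy

end GD
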