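import Pool.Agent.H65.GC.Leg

/-!
# Classes of determinants of periods and of gamma products
-/

noncomputable section

namespace GD

open Complex Module NumberField

variable {V : Type} [AddCommGroup V] [Module ℚ V] {cls : ℂ → V}

section gval

variable {N : ℕ} [NeZero N]

/-- The class of the gamma product with the types `p`. -/
def gVal (cls : ℂ → V) (p : (ZMod N)ˣ → ℚ) (l : (ZMod N)ˣ) : V := by
  classical
  exact if h : ∃ ε : ZMod N → ℚ, ∀ l, tsum' N (fun x => x) ε l = p l then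
    tsum' N (gam cls) h.choose l else 0

theorem gVal_eq (hΓ : GammaSpec V cls) {p : (ZMod N)ˣ → ℚ} {ε : ZMod N → ℚ}
    (h : ∀ l, tsum' N (fun x => x) ε l = p l) (l : (ZMod N)ˣ) :
    gVal cls p l = tsum' N (gam cls) ε l := by
  have h1 : ∃ ε : ZMod N → ℚ, ∀ l, tsum' N (fun x => x) ε l = p l := ⟨ε, h⟩
  rw [gVal, dif_pos h1]
  exact ko' hΓ N _ _ (fun l => by rw [h1.choose_spec l, h l]) l

theorem gVal_add (hΓ : GammaSpec V cls) {p p' : (ZMod N)ˣ → ℚ}
    (h : ∃ ε : ZMod N → ℚ, ∀ l, tsum' N (fun x => x) ε l = p l)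
    (h' : ∃ ε : ZMod N → ℚ, ∀ l, tsum' N (fun x => x) ε l = p' l) (l : (ZMod N)ˣ) :
    gVal cls (fun l => p l + p' l) l = gVal cls p l + gVal cls p' l := by
  obtain ⟨ε, hε⟩ := h
  obtain ⟨ε', hε'⟩ := h'
  rw [gVal_eq hΓ hε, gVal_eq hΓ hε', ← tsum_add]
  exact gVal_eq hΓ (fun l => by rw [tsum_add, hε, hε']) l

theorem gc_exists_const (hΓ : GammaSpec V cls) (hN : 3 ≤ N) (m : ℚ) :
    ∃ ε : ZMod N → ℚ, ∀ l, tsum' N (fun x => x) ε l = m :=
  ex' hΓ N hN (m + m) (fun _ => m) (fun _ => rfl)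

theorem gVal_const (hΓ : GammaSpec V cls) (hN : 3 ≤ N) (m : ℚ) (l : (ZMod N)ˣ) :
    gVal cls (fun _ : (ZMod N)ˣ => m) l = m • cls ((Real.pi : ℝ) : ℂ) := by
  obtain ⟨ε, hε⟩ := gc_exists_const hΓ hN m
  rw [gVal_eq hΓ hε]
  have h1 := gam_odd hΓ N (m + m) ε l (by rw [hε, hε])
  have h2 : tsum' N (gam cls) ε (-l) = tsum' N (gam cls) ε l := by
    have h3 : (-l) = l * (-1) := by rw [mul_neg, mul_one]
    rw [h3, ← tsum_shift]
    apply ko' hΓ
    intro l'
    rw [tsum_shift, hε, hε]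
  rw [h2, ← two_smul ℚ, ← two_mul, mul_smul] at h1
  have h4 : (2 : ℚ) • (tsum' N (gam cls) ε l - m • cls ((Real.pi : ℝ) : ℂ)) = 0 := by
    rw [smul_sub, h1, sub_self]
  rcases smul_eq_zero.1 h4 with h5 | h5
  · norm_num at h5
  · exact sub_eq_zero.1 h5

theorem IsPiece.exists_eps (hΓ : GammaSpec V cls) (hN : 3 ≤ N) {S : Str}
    {U : (ZMod N)ˣ → Submodule ℂ S.W} (hU : IsPiece N S U) :
    ∃ ε : ZMod N → ℚ, ∀ l, tsum' N (fun x => x) ε l = (spaceType S (U l) : ℚ) :=
  ex' hΓ N hN _ (fun l => (spaceType S (U l) : ℚ)) hU.type_odd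

end gval

section uval

variable {S : Str}

/-- The class of the determinants of periods of a subspace. -/
def uVal (cls : ℂ → V) (S : Str) (U : Submodule ℂ S.W) : V := by
  classical
  exact if h : ∃ z, IsSpacePeriod S U z then cls h.choose else 0

/-- Relations between classes from relations between traces. -/
theorem cls_rel (hΓ : GammaSpec V cls) {α : Type*} (s : Finset α) (S : α → Str)
    (U : ∀ i, Submodule ℂ (S i).W) (z : α → ℂ) (q : α → ℚ)
    (hz : ∀ i ∈ s, IsSpacePeriod (S i) (U i) (z i)) (m : ℚ)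
    (h : ∀ δ : Derivation Qbar ℂ ℂ, ∑ i ∈ s, (q i : ℂ) * trOn ((S i).A δ) (U i) = m * cpi δ) :
    ∑ i ∈ s, q i • cls (z i) = m • cls ((Real.pi : ℝ) : ℂ) := by
  classical
  have h1 := cls_of_dlog hΓ (Finset.insertNone s) (fun o : Option α => o.elim (2 * Real.pi * I) z)
    (fun o => o.elim (-m) q) (by
      rintro (_ | i) hi
      · exact two_pi_I_ne'
      · exact (hz i (Finset.some_mem_insertNone.1 hi)).trace.1) (by
      intro δ
      rw [Finset.sum_insertNone]
      have h2 : ∑ i ∈ s, ((q i : ℚ) : ℂ) * (δ (z i) / z i) = m * cpi δ := by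
        rw [← h δ]
        exact Finset.sum_congr rfl fun i hi => by rw [(hz i hi).trace.2 δ]
      simp only [Option.elim]
      rw [h2, cpi]
      push_cast
      ring)
  rw [Finset.sum_insertNone] at h1
  simp only [Option.elim] at h1
  have h3 : cls (2 * Real.pi * I) = cls ((Real.pi : ℝ) : ℂ) := by
    have := cls_two_pi_I hΓ 1
    rw [pow_one] at this
    rw [this]
    norm_num
  rw [h3, neg_smul] at h1
  exact (neg_add_eq_zero.1 h1).symm

theorem uVal_eq (hΓ : GammaSpec V cls) {U : Submodule ℂ S.W} {z : ℂ}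
    (hz : IsSpacePeriod S U z) : uVal cls S U = cls z := by
  have h : ∃ z, IsSpacePeriod S U z := ⟨z, hz⟩
  rw [uVal, dif_pos h]
  have h1 := cls_rel hΓ (Finset.univ : Finset (Fin 2)) (fun _ => S) (fun _ => U)
    (fun j => if j = 0 then h.choose else z) (fun j => if j = 0 then 1 else -1)
    (by
      intro j _
      split_ifs
      · exact h.choose_spec
      · exact hz) 0 (by
      intro δ
      rw [Fin.sum_univ_two]
      simp)
  rw [Fin.sum_univ_two] at h1
  simp only [if_true, Fin.isValue, one_ne_zero, if_false, one_smul, neg_smul, zero_smul] at h1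
  exact add_neg_eq_zero.1 h1

/-- The class of the determinants of periods from the traces. -/
theorem uVal_of_trace (hΓ : GammaSpec V cls) {U : Submodule ℂ S.W} {z : ℂ}
    (hz : IsSpacePeriod S U z) (m : ℚ)
    (h : ∀ δ : Derivation Qbar ℂ ℂ, trOn (S.A δ) U = m * cpi δ) :
    uVal cls S U = m • cls ((Real.pi : ℝ) : ℂ) := by
  rw [uVal_eq hΓ hz]
  have h1 := cls_rel hΓ (Finset.univ : Finset (Fin 1)) (fun _ => S) (fun _ => U) (fun _ => z)
    (fun _ => 1) (fun _ _ => hz) m (by
      intro δ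
      simp [h δ])
  simpa using h1

theorem uVal_sup (hΓ : GammaSpec V cls) {U U' : Submodule ℂ S.W} {z z' z'' : ℂ}
    (hz : IsSpacePeriod S U z) (hz' : IsSpacePeriod S U' z')
    (hz'' : IsSpacePeriod S (U ⊔ U') z'')
    (h : ∀ δ : Derivation Qbar ℂ ℂ,
      trOn (S.A δ) (U ⊔ U') = trOn (S.A δ) U + trOn (S.A δ) U') :
    uVal cls S (U ⊔ U') = uVal cls S U + uVal cls S U' := by
  rw [uVal_eq hΓ hz, uVal_eq hΓ hz', uVal_eq hΓ hz'']
  have h1 := cls_rel hΓ (Finset.univ : Finset (Fin 3)) (fun _ => S)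
    (fun j => if j = 0 then U ⊔ U' else if j = 1 then U else U')
    (fun j => if j = 0 then z'' else if j = 1 then z else z')
    (fun j => if j = 0 then 1 else -1)
    (by
      intro j _
      split_ifs
      · exact hz''
      · exact hz
      · exact hz') 0 (by
      intro δ
      rw [Fin.sum_univ_three]
      simp [h δ])
  rw [Fin.sum_univ_three] at h1
  simp only [if_true, Fin.isValue, one_ne_zero, if_false, one_smul, neg_smul, zero_smul,
    Fin.reduceEq] at h1
  have h2 : cls z'' - (cls z + cls z') = 0 := by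
    rw [← h1]
    abel
  exact sub_eq_zero.1 h2

end uval

end GD
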